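import Mathlib
import Pool.Agent.V7H42.ET.Rng

set_option autoImplicit false

/-! The valuation ring of a field with few classes that are not rigid, with a bound by the order of
the group generated by these classes (after `Pool.Agent.V7H42.ET.ring_all`). -/

namespace Pool.Agent.V7H79.EU

open Pool.Agent.Y920.EP
open Pool.Agent.Y920.ETC (PCD Compat RigidPair)
open Pool.Agent.V7H42.ET (nonrigidC nonrigid_eq closure_finite relIndex_two)

section

variable {F : Type} [Field F] {A : Type} [CommGroup A] {φ : Fˣ →* A} {p : ℕ}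

/-- the valuation ring -/
theorem ring_K (hsurj : Function.Surjective φ) (hp : p.Prime) {T : Subgroup Fˣ}
    (hker : φ.ker = T) (hT : pwG F p ≤ T) (hn : φ (-1) = 1) (hfin : (NR φ).Finite) :
    ∃ (H : Subgroup Fˣ) (O : ValuationSubring F), T ≤ H ∧ T.relIndex H ≠ 0 ∧
      T.relIndex H ≤ (if p = 2 then 2 else 1) * Nat.card (Subgroup.closure (NR φ)) ∧
      O.unitGroup ≤ H ∧
      (∀ y : F, y ∈ O → y⁻¹ ∉ O → ∃ t ∈ T, ((t : Fˣ) : F) = 1 + y) ∧
      (T = pwG F p → (p : F) ≠ 0 → (p : F)⁻¹ ∈ O) := by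
  have hexp : ∀ a : A, a ^ p = 1 := by
    intro a
    obtain ⟨x, rfl⟩ := hsurj a
    rw [← map_pow, ← MonoidHom.mem_ker, hker]
    exact hT ⟨x, rfl⟩
  set K := Subgroup.closure (NR φ) with hKdef
  have hRP : RP φ.ker (K.comap φ) := rp_of hn K Subgroup.subset_closure
  have hidx : φ.ker.relIndex (K.comap φ) = Nat.card K := by
    have h1 := Subgroup.relIndex_ker φ (K := K.comap φ)
    rwa [Subgroup.map_comap_eq_self_of_surjective hsurj] at h1
  have hfinK : Finite K := closure_finite hp hexp hfin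
  have hpos : Nat.card K ≠ 0 := Nat.card_pos.ne'
  -- the group of the units
  obtain ⟨H, hRPH, hPCD, hi1, hi2⟩ : ∃ H : Subgroup Fˣ, RP φ.ker H ∧ PCD φ.ker H ∧
      φ.ker.relIndex H ≠ 0 ∧ φ.ker.relIndex H ≤ (if p = 2 then 2 else 1) * Nat.card K := by
    by_cases hp2 : p = 2
    · subst hp2
      have hsq : ∀ x : Fˣ, x * x ∈ φ.ker := by
        intro y
        rw [MonoidHom.mem_ker, ← pow_two, map_pow, hexp]
      obtain ⟨z, H', hH', hR', hP'⟩ := Pool.Agent.Y925.ET.t_WA F φ.ker (K.comap φ)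
        ⟨hsq, hRP.le, hRP.neg, hRP.rigid⟩
      obtain ⟨h3, h4⟩ := relIndex_two hRP.le hsq z hH' (by rw [hidx]; exact hpos)
      refine ⟨H', ⟨hR'.le, hR'.neg, hR'.rigid⟩, hP', h3, h4.trans ?_⟩
      rw [hidx, if_pos rfl]
    · have hsq : ∀ x : Fˣ, x * x ∈ K.comap φ → x ∈ K.comap φ := by
        intro x hx
        rw [Subgroup.mem_comap] at hx ⊢
        obtain ⟨m, hm⟩ := hp.odd_of_ne_two hp2
        have : φ x = φ (x * x) ^ (m + 1) := by
          rw [map_mul, ← pow_two, ← pow_mul, show 2 * (m + 1) = p + 1 by omega, pow_succ,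
            hexp, one_mul]
        rw [this]
        exact pow_mem hx _
      refine ⟨K.comap φ, hRP, Pool.Agent.Y98.EP.t_PCD F _ _ hRP hsq, by rw [hidx]; exact hpos,
        ?_⟩
      rw [hidx, if_neg hp2, one_mul]
  obtain ⟨O, hO⟩ := Pool.Agent.Y447.EP.t_WB' F _ _ hRPH hPCD
  rw [hker] at hRPH hO hi1 hi2
  have key : ∃ O' : ValuationSubring F, Compat T H O' ∧
      (T = pwG F p → (p : F) ≠ 0 → (p : F)⁻¹ ∈ O') := by
    by_cases hcase : T = pwG F p ∧ (p : F) ≠ 0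
    · obtain ⟨O', -, hpO, hO'⟩ := Pool.Agent.Y232.EP.t_COARSE' F p hp hcase.2 T
        H (fun x => by rw [hcase.1, mem_pwG]) hRPH.le O hO
      exact ⟨O', hO', fun _ _ => hpO⟩
    · exact ⟨O, hO, fun h1 h2 => absurd ⟨h1, h2⟩ hcase⟩
  obtain ⟨O', hO', hpO'⟩ := key
  refine ⟨H, O', hRPH.le, hi1, hi2, ?_, hO'.one, hpO'⟩
  intro u hu
  refine hO'.units u ?_ ?_
  · rw [← ValuationSubring.valuation_le_one_iff]
    exact le_of_eq hu
  · rw [← ValuationSubring.valuation_le_one_iff]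
    exact le_of_eq (inv_mem hu : u⁻¹ ∈ O'.unitGroup)

end

section

variable {F : Type} [Field F] {p : ℕ}

/-- the valuation ring, for a subgroup `T` -/
theorem ring_KT (hp : p.Prime) {T : Subgroup Fˣ} (hT : pwG F p ≤ T) (hneg : (-1 : Fˣ) ∈ T)
    (hfin : (nonrigidC T).Finite) {C : ℕ} (hC : Nat.card (Subgroup.closure (nonrigidC T)) ≤ C) :
    ∃ O : ValuationSubring F,
      (∀ y : F, y ∈ O → y⁻¹ ∉ O → ∃ t ∈ T, ((t : Fˣ) : F) = 1 + y) ∧
      T.relIndex (O.unitGroup ⊔ T) ≠ 0 ∧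
      T.relIndex (O.unitGroup ⊔ T) ≤ (if p = 2 then 2 else 1) * C ∧
      (T = pwG F p → (p : F) ≠ 0 → (p : F)⁻¹ ∈ O) := by
  rw [← nonrigid_eq] at hfin hC
  obtain ⟨H, O, h1, h2, h3, h4, h5, h6⟩ := ring_K (A := Fˣ ⧸ T) (φ := QuotientGroup.mk' T)
    (QuotientGroup.mk'_surjective T) hp (QuotientGroup.ker_mk' T) hT (by
      rw [QuotientGroup.mk'_apply, QuotientGroup.eq_one_iff]; exact hneg) hfin
  have h7 : O.unitGroup ⊔ T ≤ H := sup_le h4 h1
  have h8 : T.relIndex (O.unitGroup ⊔ T) ∣ T.relIndex H :=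
    Dvd.intro _ (Subgroup.relIndex_mul_relIndex T (O.unitGroup ⊔ T) H le_sup_right h7)
  refine ⟨O, h5, fun h => h2 ?_, (Nat.le_of_dvd (Nat.pos_of_ne_zero h2) h8).trans
    (h3.trans (Nat.mul_le_mul_left _ hC)), h6⟩
  rw [h] at h8
  exact Nat.eq_zero_of_zero_dvd h8

end

end Pool.Agent.V7H79.EU
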