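import Mathlib
import Pool.Agent.V7H42.ET.Rng

set_option autoImplicit false

/-! The case `p = 2` of squares: if `-1` is a square, the classes that are not rigid and the trivial
class form a group (Berman). -/

namespace Pool.Agent.V7H79.EU

open Pool.Agent.Y920.EP
open Pool.Agent.V7H42.ET (nonrigidC nonrigid_eq)

section

variable {F : Type} [Field F]

/-- the values of `x² + a y²` -/
def Nq (a : Fˣ) : Subgroup Fˣ where
  carrier := {c | ∃ x y : F, (c : F) = x ^ 2 + a * y ^ 2}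
  one_mem' := ⟨1, 0, by rw [Units.val_one]; ring⟩
  mul_mem' := by
    rintro c d ⟨x, y, hc⟩ ⟨z, w, hd⟩
    exact ⟨x * z - a * y * w, x * w + y * z, by rw [Units.val_mul, hc, hd]; ring⟩
  inv_mem' := by
    rintro c ⟨x, y, hc⟩
    have h0 : (c : F) ≠ 0 := c.ne_zero
    refine ⟨x / c, y / c, ?_⟩
    rw [Units.val_inv_eq_inv_val]
    field_simp
    exact hc

lemma mem_Nq {a c : Fˣ} : c ∈ Nq a ↔ ∃ x y : F, (c : F) = x ^ 2 + a * y ^ 2 := Iff.rfl

lemma sq_mem {a c : Fˣ} (hc : c ∈ pwG F 2) : c ∈ Nq a := by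
  obtain ⟨t, rfl⟩ := mem_pwG.1 hc
  exact ⟨t, 0, by rw [Units.val_pow_eq_pow_val]; ring⟩

lemma self_mem_Nq (a : Fˣ) : a ∈ Nq a := ⟨0, 1, by ring⟩

lemma nq_symm (h2 : (2 : F) ≠ 0) {i : F} (hi : i ^ 2 = -1) {a c : Fˣ} (h : c ∈ Nq a) :
    a ∈ Nq c := by
  obtain ⟨x, y, hc⟩ := h
  by_cases hy : y = 0
  · rw [hy] at hc
    have hx : x ≠ 0 := by
      rintro rfl
      apply c.ne_zero
      rw [hc]
      ring
    refine ⟨(a + 1) / 2, i * (a - 1) / (2 * x), ?_⟩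
    have e : (c : F) * (i * (a - 1) / (2 * x)) ^ 2 = i ^ 2 * ((a - 1) / 2) ^ 2 := by
      rw [hc]
      field_simp
      ring
    rw [e, hi]
    field_simp
    ring
  · refine ⟨i * x / y, 1 / y, ?_⟩
    have e : (i * x / y) ^ 2 + (c : F) * (1 / y) ^ 2 = (i ^ 2 + 1) * x ^ 2 / y ^ 2 + a := by
      rw [hc]
      field_simp
      ring
    rw [e, hi]
    ring

/-- a class is rigid -/
def Rg (a : Fˣ) : Prop := ∀ c ∈ Nq a, c ∈ pwG F 2 ∨ c / a ∈ pwG F 2

lemma sq_sq (c : Fˣ) : c * c ∈ pwG F 2 := mem_pwG.2 ⟨c, by rw [sq]⟩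

lemma mem_mul_sq {T : Subgroup Fˣ} {c d : Fˣ} (hd : d ∈ T) : c * d ∈ T ↔ c ∈ T :=
  Subgroup.mul_mem_cancel_right T hd

lemma inter (h2 : (2 : F) ≠ 0) {i : F} (hi : i ^ 2 = -1) {a b : Fˣ} (ha : a ∉ pwG F 2)
    (hb : b ∉ pwG F 2) (hab : Rg (a * b)) {x : Fˣ} (hxa : x ∈ Nq a) (hxb : x ∈ Nq b) :
    x ∈ pwG F 2 := by
  have h3 : x ∈ Nq (a * b) :=
    nq_symm h2 hi (mul_mem (nq_symm h2 hi hxa) (nq_symm h2 hi hxb))
  rcases hab x h3 with h4 | h4
  · exact h4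
  · exfalso
    -- `a b ∈ N(a)`
    have h5 : a * b ∈ Nq a := by
      have h6 := mul_mem hxa (inv_mem (sq_mem (a := a) h4))
      have h7 : x * (x / (a * b))⁻¹ = a * b := by
        rw [inv_div, mul_div_cancel]
      rwa [h7] at h6
    have h6 := nq_symm h2 hi h5
    rcases hab a h6 with h7 | h7
    · exact ha h7
    · apply hb
      have h8 := inv_mem h7
      rw [inv_div, mul_comm, mul_div_assoc, div_self', mul_one] at h8
      exact h8

lemma add_cases {a : Fˣ} {v : Fˣ} {x w : F} (hv : (v : F) = x ^ 2 + w) {d : Fˣ} {t : F}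
    (hw : w = d * t ^ 2) (h : ∃ s ∈ pwG F 2, d = a * s) : v ∈ Nq a := by
  obtain ⟨s, hs, rfl⟩ := h
  obtain ⟨q, rfl⟩ := mem_pwG.1 hs
  refine ⟨x, q * t, ?_⟩
  rw [hv, hw, Units.val_mul, Units.val_pow_eq_pow_val]
  ring

/-- if `a b` is rigid then `x² + a y² + b z²` is in `N(a)` or `N(b)` -/
lemma three (a b : Fˣ) (hab : Rg (a * b)) {v : Fˣ} {x y z : F}
    (hv : (v : F) = x ^ 2 + (a * y ^ 2 + b * z ^ 2)) : v ∈ Nq a ∨ v ∈ Nq b := by
  by_cases h0 : (a : F) * y ^ 2 + b * z ^ 2 = 0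
  · left
    exact ⟨x, 0, by rw [hv, h0]; ring⟩
  obtain ⟨w, hw⟩ : ∃ w : Fˣ, (w : F) = a * y ^ 2 + b * z ^ 2 := ⟨Units.mk0 _ h0, rfl⟩
  have h1 : w * a ∈ Nq (a * b) := by
    refine ⟨a * y, z, ?_⟩
    rw [Units.val_mul, hw, Units.val_mul]
    ring
  rcases hab _ h1 with h2 | h2
  · left
    refine add_cases (a := a) (d := w) (t := 1) (x := x) (w := w) (by rw [hv, hw]) (by ring)
      ⟨w * a * (a * a)⁻¹, mul_mem h2 (inv_mem (sq_sq a)), ?_⟩
    rw [mul_inv, mul_comm, mul_assoc, mul_assoc]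
    simp
  · right
    refine add_cases (a := b) (d := w) (t := 1) (x := x) (w := w) (by rw [hv, hw]) (by ring)
      ⟨w * a / (a * b), h2, ?_⟩
    rw [mul_comm b, div_mul_eq_mul_div, mul_assoc, mul_div_assoc, div_self', mul_one]

lemma step_b (h2 : (2 : F) ≠ 0) {i : F} (hi : i ^ 2 = -1) {a b : Fˣ} (ha : a ∉ pwG F 2)
    (hb : b ∉ pwG F 2) (hab : Rg (a * b)) {x : Fˣ} (hx : x ∈ Nq a) (hxT : x ∉ pwG F 2) :
    Rg (b * x) := by
  intro z hz
  have key : ∀ z ∈ Nq (b * x), x * z ∈ Nq a ∨ x * z ∈ Nq b := by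
    intro z hz
    obtain ⟨s, t, hst⟩ := hz
    obtain ⟨p, q, hpq⟩ := hx
    refine three a b hab (x := p * s) (y := q * s) (z := x * t) ?_
    rw [Units.val_mul, hst, Units.val_mul]
    linear_combination (s ^ 2) * hpq
  have hbx : b * x ∈ Nq (b * x) := self_mem_Nq _
  have k1 := key z hz
  have k2 := key (z * (b * x)) (mul_mem hz hbx)
  have k2' : b * z ∈ Nq a ∨ b * z ∈ Nq b := by
    have e : x * (z * (b * x)) = b * z * (x * x) := by ac_rfl
    rw [e] at k2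
    rcases k2 with k | k
    · exact Or.inl ((mem_mul_sq (sq_mem (sq_sq x))).1 k)
    · exact Or.inr ((mem_mul_sq (sq_mem (sq_sq x))).1 k)
  rcases k1 with k1 | k1
  · have hza : z ∈ Nq a := (Subgroup.mul_mem_cancel_left _ hx).1 k1
    rcases k2' with k2 | k2
    · exfalso
      have h3 : b ∈ Nq a := (Subgroup.mul_mem_cancel_right _ hza).1 k2
      exact hb (inter h2 hi ha hb hab h3 (self_mem_Nq b))
    · have hzb : z ∈ Nq b := (Subgroup.mul_mem_cancel_left _ (self_mem_Nq b)).1 k2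
      exact Or.inl (inter h2 hi ha hb hab hza hzb)
  · rcases k2' with k2 | k2
    · right
      have e1 : z * (b * x) = (b * z) * x := by ac_rfl
      have e2 : z * (b * x) = (x * z) * b := by ac_rfl
      have h3 : z * (b * x) ∈ Nq a := by rw [e1]; exact mul_mem k2 hx
      have h4 : z * (b * x) ∈ Nq b := by rw [e2]; exact mul_mem k1 (self_mem_Nq b)
      have h5 := inter h2 hi ha hb hab h3 h4
      have e3 : z / (b * x) = z * (b * x) * ((b * x) * (b * x))⁻¹ := by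
        rw [mul_inv, mul_assoc, mul_inv_cancel_left, div_eq_mul_inv]
      rw [e3]
      exact mul_mem h5 (inv_mem (sq_sq _))
    · exfalso
      have hzb : z ∈ Nq b := (Subgroup.mul_mem_cancel_left _ (self_mem_Nq b)).1 k2
      have hxb : x ∈ Nq b := (Subgroup.mul_mem_cancel_right _ hzb).1 k1
      exact hxT (inter h2 hi ha hb hab hx hxb)

theorem bas (h2 : (2 : F) ≠ 0) {i : F} (hi : i ^ 2 = -1) {a b : Fˣ} (ha : a ∉ pwG F 2)
    (hb : b ∉ pwG F 2) (hab : Rg (a * b)) {x y : Fˣ} (hx : x ∈ Nq a) (hx1 : x ∉ pwG F 2)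
    (hx2 : x / a ∉ pwG F 2) (hy : y ∈ Nq b) (hy1 : y ∉ pwG F 2) (hy2 : y / b ∉ pwG F 2) :
    False := by
  have h3 : Rg (b * (a * x)) := by
    refine step_b h2 hi ha hb hab (mul_mem (self_mem_Nq a) hx) fun h => hx2 ?_
    have e : x / a = a * x * (a * a)⁻¹ := by
      rw [mul_inv, mul_comm a x, mul_assoc, mul_inv_cancel_left, div_eq_mul_inv]
    rw [e]
    exact mul_mem h (inv_mem (sq_sq a))
  have h3' : Rg (b * x) := step_b h2 hi ha hb hab hx hx1
  have h4 : x * y ∈ Nq a ∨ x * y ∈ Nq (b * x) := by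
    obtain ⟨s, t, hst⟩ := hy
    obtain ⟨p, q, hpq⟩ := hx
    have e : a * (b * x) = b * (a * x) := by ac_rfl
    refine three a (b * x) (by rw [e]; exact h3) (x := p * s) (y := q * s) (z := t) ?_
    rw [Units.val_mul, hst, Units.val_mul]
    linear_combination (s ^ 2) * hpq
  have h5 : x * y ∉ Nq a := by
    intro h
    have h6 : y ∈ Nq a := (Subgroup.mul_mem_cancel_left _ hx).1 h
    exact hy1 (inter h2 hi ha hb hab h6 hy)
  rcases h4 with h4 | h4
  · exact h5 h4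
  · rcases h3' _ h4 with h6 | h6
    · exact h5 (sq_mem h6)
    · apply hy2
      rwa [mul_comm b x, mul_div_mul_left_eq_div] at h6

/-- the classes of the elements that are not rigid -/
lemma mem_nonrigid {i : F} (hi : i ^ 2 = -1) (a : Fˣ) (ha : a ∉ pwG F 2) :
    (a : Fˣ ⧸ pwG F 2) ∈ nonrigidC (pwG F 2) ↔
      ∃ c ∈ Nq a, c ∉ pwG F 2 ∧ c / a ∉ pwG F 2 := by
  constructor
  · rintro ⟨r, s, hr, hrs, -, hs1, hs2⟩
    rw [eq_comm, QuotientGroup.eq] at hr
    obtain ⟨t, ht⟩ := mem_pwG.1 hr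
    have h1 : r = a * t ^ 2 := by rw [← ht, mul_inv_cancel_left]
    refine ⟨s, ⟨1, i * t, ?_⟩, hs1, fun h => hs2 ?_⟩
    · rw [h1, Units.val_mul, Units.val_pow_eq_pow_val] at hrs
      linear_combination hrs - a * t ^ 2 * hi
    · have e : s / r = s / a * (t ^ 2)⁻¹ := by rw [h1, div_mul_eq_div_div, div_eq_mul_inv (s / a)]
      rw [e]
      exact mul_mem h (inv_mem (mem_pwG.2 ⟨t, rfl⟩))
  · rintro ⟨c, ⟨x, y, hc⟩, hc1, hc2⟩
    have hx : x ≠ 0 := by
      rintro rfl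
      apply hc2
      have hy : y ≠ 0 := by
        rintro rfl
        apply c.ne_zero
        rw [hc]
        ring
      refine mem_pwG.2 ⟨Units.mk0 y hy, Units.ext ?_⟩
      rw [Units.val_div_eq_div_val, hc, Units.val_pow_eq_pow_val, Units.val_mk0]
      field_simp
      ring
    have hy : y ≠ 0 := by
      rintro rfl
      apply hc1
      refine mem_pwG.2 ⟨Units.mk0 x hx, Units.ext ?_⟩
      rw [hc, Units.val_pow_eq_pow_val, Units.val_mk0]
      ring
    have hi0 : i ≠ 0 := by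
      rintro rfl
      have h3 : (0 : F) = -1 := by rw [← hi]; ring
      exact one_ne_zero (neg_eq_zero.1 h3.symm)
    obtain ⟨u, hu⟩ : ∃ u : Fˣ, (u : F) = i * y / x :=
      ⟨Units.mk0 _ (div_ne_zero (mul_ne_zero hi0 hy) hx), rfl⟩
    obtain ⟨w, hw⟩ : ∃ w : Fˣ, (w : F) = x := ⟨Units.mk0 x hx, rfl⟩
    have hr : a * u ^ 2 ∉ pwG F 2 := by
      rw [mem_mul_sq (mem_pwG.2 ⟨u, rfl⟩)]
      exact ha
    refine ⟨a * u ^ 2, c * (w ^ 2)⁻¹, ?_, ?_, hr, ?_, ?_⟩
    · rw [eq_comm, QuotientGroup.eq, inv_mul_cancel_left]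
      exact mem_pwG.2 ⟨u, rfl⟩
    · rw [Units.val_mul, Units.val_mul, Units.val_pow_eq_pow_val, hu, Units.val_inv_eq_inv_val,
        Units.val_pow_eq_pow_val, hw, hc]
      field_simp
      linear_combination (a * y ^ 2) * hi
    · rw [mem_mul_sq (inv_mem (mem_pwG.2 ⟨w, rfl⟩))]
      exact hc1
    · have e : c * (w ^ 2)⁻¹ / (a * u ^ 2) = c / a * ((w * u) ^ 2)⁻¹ := by
        rw [mul_pow, mul_inv, div_eq_mul_inv, div_eq_mul_inv, mul_inv]
        ac_rfl
      rw [e, mem_mul_sq (inv_mem (mem_pwG.2 ⟨w * u, rfl⟩))]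
      exact hc2

/-- the nonrigid classes and the trivial class form a group -/
theorem berman (h2 : (2 : F) ≠ 0) (hneg : (-1 : Fˣ) ∈ pwG F 2) {a b : Fˣ ⧸ pwG F 2}
    (ha : a ∈ nonrigidC (pwG F 2)) (hb : b ∈ nonrigidC (pwG F 2)) :
    a * b = 1 ∨ a * b ∈ nonrigidC (pwG F 2) := by
  obtain ⟨j, hj⟩ := mem_pwG.1 hneg
  have hi : (j : F) ^ 2 = -1 := by
    rw [← Units.val_pow_eq_pow_val, ← hj, Units.val_neg, Units.val_one]
  obtain ⟨a, rfl⟩ := QuotientGroup.mk_surjective a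
  obtain ⟨b, rfl⟩ := QuotientGroup.mk_surjective b
  have hne : ∀ {c : Fˣ}, (c : Fˣ ⧸ pwG F 2) ∈ nonrigidC (pwG F 2) → c ∉ pwG F 2 := by
    rintro c ⟨r, s, hr, -, hr1, -⟩ h
    apply hr1
    rw [← QuotientGroup.eq_one_iff, hr, QuotientGroup.eq_one_iff]
    exact h
  have ha1 := hne ha
  have hb1 := hne hb
  by_cases hab : a * b ∈ pwG F 2
  · left
    rw [← QuotientGroup.mk_mul, QuotientGroup.eq_one_iff]
    exact hab
  right
  rw [← QuotientGroup.mk_mul, mem_nonrigid hi _ hab]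
  by_contra hc
  push Not at hc
  obtain ⟨x, hx, hx1, hx2⟩ := (mem_nonrigid hi a ha1).1 ha
  obtain ⟨y, hy, hy1, hy2⟩ := (mem_nonrigid hi b hb1).1 hb
  refine bas h2 hi ha1 hb1 ?_ hx hx1 hx2 hy hy1 hy2
  intro c hc'
  by_contra h
  push Not at h
  exact h.2 (hc c hc' h.1)

theorem closure_sq (h2 : (2 : F) ≠ 0) (hneg : (-1 : Fˣ) ∈ pwG F 2)
    (hfin : (nonrigidC (pwG F 2)).Finite) :
    Nat.card (Subgroup.closure (nonrigidC (pwG F 2))) ≤ (nonrigidC (pwG F 2)).ncard + 1 := by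
  have hsq : ∀ g : Fˣ ⧸ pwG F 2, g⁻¹ = g := by
    intro g
    obtain ⟨a, rfl⟩ := QuotientGroup.mk_surjective g
    rw [inv_eq_iff_mul_eq_one, ← QuotientGroup.mk_mul, QuotientGroup.eq_one_iff]
    exact sq_sq a
  let S : Subgroup (Fˣ ⧸ pwG F 2) :=
    { carrier := insert 1 (nonrigidC (pwG F 2))
      one_mem' := Set.mem_insert _ _
      mul_mem' := by
        rintro a b (rfl | ha) (rfl | hb)
        · rw [one_mul]; exact Set.mem_insert _ _
        · rw [one_mul]; exact Or.inr hb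
        · rw [mul_one]; exact Or.inr ha
        · exact berman h2 hneg ha hb
      inv_mem' := by
        intro a ha
        rw [hsq]
        exact ha }
  have hle : Subgroup.closure (nonrigidC (pwG F 2)) ≤ S := by
    rw [Subgroup.closure_le]
    exact Set.subset_insert _ _
  have h3 : ((Subgroup.closure (nonrigidC (pwG F 2)) : Subgroup _) : Set (Fˣ ⧸ pwG F 2)).ncard ≤
      (insert 1 (nonrigidC (pwG F 2))).ncard :=
    Set.ncard_le_ncard hle (hfin.insert 1)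
  exact h3.trans (Set.ncard_insert_le _ _)

end

end Pool.Agent.V7H79.EU
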