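import Mathlib

set_option autoImplicit false

/-! Two combinatorial lemmas: homogeneous sequences for colourings of differences (from Hindman's
theorem), and finite sets that leave a finite union of thin sets. -/

namespace Pool.Agent.V7H79.EU

open Hindman

lemma fs_const_pos (a : Stream' ℕ) (m : ℕ) (h : FS a m) : (∀ i, 1 ≤ a.get i) → 1 ≤ m := by
  induction h with
  | head' a => intro ha; exact ha 0
  | tail' a m _ ih =>
    intro ha
    exact ih fun i => ha (i + 1)
  | cons' a m _ ih =>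
    intro ha
    have := ha 0
    change 1 ≤ a.head + m
    have h0 : a.get 0 = a.head := rfl
    omega

/-- every finite colouring of the positive integers has a sequence with homogeneous differences -/
theorem exists_diff {A : Type} (f : ℕ → A) (hf : (f '' {n | 1 ≤ n}).Finite) :
    ∃ (α : A) (σ : ℕ → ℕ), StrictMono σ ∧ (∃ n, 1 ≤ n ∧ f n = α) ∧
      ∀ i j, i < j → f (σ j - σ i) = α := by
  classical
  let s : Set (Set ℕ) := (fun α => {n | 1 ≤ n ∧ f n = α}) '' (f '' {n | 1 ≤ n})
  have hs : s.Finite := hf.image _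
  let a : Stream' ℕ := Stream'.const 1
  have hcov : FS a ⊆ ⋃₀ s := by
    intro m hm
    have h1 : 1 ≤ m := fs_const_pos a m hm fun i => by
      rw [Stream'.get_const]
    exact ⟨_, ⟨f m, ⟨m, h1, rfl⟩, rfl⟩, h1, rfl⟩
  obtain ⟨c, ⟨α, ⟨n, hn, hnα⟩, rfl⟩, b, hb⟩ := FS_partition_regular a s hs hcov
  have hsum : ∀ t : Finset ℕ, t.Nonempty → 1 ≤ ∑ i ∈ t, b.get i ∧ f (∑ i ∈ t, b.get i) = α :=
    fun t ht => hb (FS.finsetSum b t ht)
  have hpos : ∀ i, 1 ≤ b.get i := by
    intro i
    have := (hsum {i} ⟨i, Finset.mem_singleton_self i⟩).1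
    rwa [Finset.sum_singleton] at this
  refine ⟨α, fun j => ∑ i ∈ Finset.range j, b.get i, ?_, ⟨n, hn, hnα⟩, ?_⟩
  · apply strictMono_nat_of_lt_succ
    intro j
    rw [Finset.sum_range_succ]
    have := hpos j
    omega
  · intro i j hij
    have h1 : ∑ k ∈ Finset.range j, b.get k - ∑ k ∈ Finset.range i, b.get k =
        ∑ k ∈ Finset.Ico i j, b.get k := by
      have h2 := Finset.sum_Ico_consecutive (fun k => b.get k) (Nat.zero_le i) hij.le
      rw [Finset.range_eq_Ico, Finset.range_eq_Ico]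
      omega
    show f (∑ k ∈ Finset.range j, b.get k - ∑ k ∈ Finset.range i, b.get k) = α
    rw [h1]
    exact (hsum _ (Finset.nonempty_Ico.2 hij)).2

/-- finite sets that leave a finite union of thin sets -/
theorem exists_leave {F : Type} [AddCommGroup F] (O : Set F) (h0 : (0 : F) ∈ O)
    (hadd : ∀ x ∈ O, ∀ y ∈ O, x + y ∈ O) {ι : Type} (P : ι → Set F) (s : Finset ι)
    (hC : ∀ i ∈ s, ∀ m : ℕ, ∃ C : Finset F, m ≤ C.card ∧ (∀ c ∈ C, c ∈ O) ∧
      ∀ x : F, ∀ c ∈ C, ∀ c' ∈ C, x + c ∈ P i → x + c' ∈ P i → c = c') :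
    ∃ D : Finset F, (∀ δ ∈ D, δ ∈ O) ∧ ∀ x : F, ∃ δ ∈ D, ∀ i ∈ s, x + δ ∉ P i := by
  classical
  induction s using Finset.induction_on with
  | empty =>
    exact ⟨{0}, fun δ hδ => by rw [Finset.mem_singleton.1 hδ]; exact h0,
      fun x => ⟨0, Finset.mem_singleton_self 0, fun i hi => absurd hi (Finset.notMem_empty i)⟩⟩
  | insert i s his ih =>
    obtain ⟨D, hD, hDx⟩ := ih fun j hj => hC j (Finset.mem_insert_of_mem hj)
    obtain ⟨C, hCc, hCO, hCx⟩ := hC i (Finset.mem_insert_self i s) (D.card + 1)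
    refine ⟨(C ×ˢ D).image fun q => q.1 + q.2, ?_, ?_⟩
    · intro δ hδ
      obtain ⟨q, hq, rfl⟩ := Finset.mem_image.1 hδ
      rw [Finset.mem_product] at hq
      exact hadd _ (hCO _ hq.1) _ (hD _ hq.2)
    · intro x
      by_contra hcon
      push Not at hcon
      have h1 : ∀ c : F, ∃ δ ∈ D, ∀ j ∈ s, x + c + δ ∉ P j := fun c => hDx (x + c)
      choose δ hδ hδP using h1
      have h2 : ∀ c ∈ C, x + δ c + c ∈ P i := by
        intro c hc
        obtain ⟨j, hj, hjP⟩ := hcon (c + δ c) (Finset.mem_image.2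
          ⟨(c, δ c), Finset.mem_product.2 ⟨hc, hδ c⟩, rfl⟩)
        rcases Finset.mem_insert.1 hj with rfl | hj
        · rwa [show x + δ c + c = x + (c + δ c) by abel]
        · exact absurd (by rwa [show x + c + δ c = x + (c + δ c) by abel]) (hδP c j hj)
      obtain ⟨c, hc, c', hc', hne, he⟩ := Finset.exists_ne_map_eq_of_card_lt_of_maps_to
        (s := C) (t := D) (by omega) (f := δ) (fun c _ => hδ c)
      apply hne
      refine hCx (x + δ c) c hc c' hc' (h2 c hc) ?_
      have := h2 c' hc'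
      rwa [← he] at this

end Pool.Agent.V7H79.EU
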