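import Mathlib
import Pool.Agent.Y705.EP.Calc
import Pool.Agent.V7H79.EU.Comb

set_option autoImplicit false

/-! Fields with many non-rigid classes: the group of units. -/

namespace Pool.Agent.V7H79.EU

open Pool.Agent.Y920.EP Pool.Agent.Y705.EP

/-- a class that contains an element `w ≥ 1` with `-w ≪ 1` -/
def Sm {F : Type} [Field F] {A : Type} [CommGroup A] (φ : Fˣ →* A) (k : ℕ) (g : A) : Prop :=
  ∃ w : Fˣ, φ w = g ∧ Le φ k 1 w ∧ Ml φ (-w) 1

/-- the elements that are not rigid -/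
def Nr {F : Type} [Field F] {A : Type} [CommGroup A] (φ : Fˣ →* A) (r : Fˣ) : Prop :=
  φ r ≠ 1 ∧ ∃ s : Fˣ, (r : F) + s = 1 ∧ φ s ≠ 1 ∧ φ s ≠ φ r

/-- the group generated by the elements that are not rigid -/
def Wg {F : Type} [Field F] {A : Type} [CommGroup A] (φ : Fˣ →* A) : Subgroup Fˣ :=
  Subgroup.closure {r | Nr φ r}

/-- there are more than `4 M + 1` classes that are not rigid -/
structure RB {F : Type} [Field F] {A : Type} [CommGroup A] (φ : Fˣ →* A) (M : ℕ) : Prop where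
  neg : φ (-1) = 1
  hl : HL φ M
  pos : 1 ≤ M
  big : ∀ E : Finset A, E.card ≤ 4 * M + 1 → ∃ b ∈ NR φ, b ∉ E

section

variable {F : Type} [Field F] {A : Type} [CommGroup A] {φ : Fˣ →* A} {M : ℕ}

/-- few classes contain small units -/
lemma sm_card (hn : φ (-1) = 1) (k : ℕ) (G : Finset A) (hG : ∀ g ∈ G, Sm φ k g) :
    G.card ≤ 2 * k + 1 := by
  classical
  choose! w hw1 hw2 hw3 using hG
  have hB : ∀ g ∈ G, ∃ B : Finset A, B.card ≤ k ∧ ∀ u : Fˣ, φ u ∉ B → Ml φ u 1 → Ml φ u (w g) :=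
    fun g hg => hw2 g hg
  choose! B hB1 hB2 using hB
  have claim : ∀ g ∈ G, ∀ h ∈ G, g ≠ h → h ∈ B g ∨ g ∈ B h := by
    intro g hg h hh hgh
    by_contra hc
    rw [not_or] at hc
    have h1 := hB2 g hg (-w h) (by rw [phi_neg hn, hw1 h hh]; exact hc.1) (hw3 h hh)
    have h2 := hB2 h hh (-w g) (by rw [phi_neg hn, hw1 g hg]; exact hc.2) (hw3 g hg)
    obtain ⟨z1, hz1, e1⟩ := h1
    obtain ⟨z2, hz2, e2⟩ := h2
    have h3 : z1 = -z2 := Units.ext (by
      rw [Units.val_neg, hz1, hz2, Units.val_neg, Units.val_neg]; ring)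
    rw [hw1 g hg] at e1
    rw [hw1 h hh] at e2
    rw [h3, phi_neg hn] at e1
    exact hgh (e1.symm.trans e2)
  let P : Finset (A × A) := G.biUnion fun g => (B g).image fun h => (g, h)
  let P' : Finset (A × A) := G.biUnion fun g => (B g).image fun h => (h, g)
  have hP : P.card ≤ G.card * k := by
    refine Finset.card_biUnion_le.trans ?_
    rw [← smul_eq_mul]
    exact Finset.sum_le_card_nsmul _ _ _ fun g hg => Finset.card_image_le.trans (hB1 g hg)
  have hP' : P'.card ≤ G.card * k := by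
    refine Finset.card_biUnion_le.trans ?_
    rw [← smul_eq_mul]
    exact Finset.sum_le_card_nsmul _ _ _ fun g hg => Finset.card_image_le.trans (hB1 g hg)
  have hsub : G.offDiag ⊆ P ∪ P' := by
    rintro ⟨g, h⟩ hgh
    rw [Finset.mem_offDiag] at hgh
    obtain ⟨hg, hh, hne⟩ := hgh
    rw [Finset.mem_union]
    rcases claim g hg h hh hne with h1 | h1
    · left
      exact Finset.mem_biUnion.2 ⟨g, hg, Finset.mem_image.2 ⟨h, h1, rfl⟩⟩
    · right
      exact Finset.mem_biUnion.2 ⟨h, hh, Finset.mem_image.2 ⟨g, h1, rfl⟩⟩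
  have h1 : G.card * G.card - G.card ≤ G.card * k + G.card * k := by
    rw [← Finset.offDiag_card]
    exact (Finset.card_le_card hsub).trans
      ((Finset.card_union_le _ _).trans (Nat.add_le_add hP hP'))
  rcases Nat.eq_zero_or_pos G.card with h0 | h0
  · omega
  by_contra hc
  push Not at hc
  have h2 : G.card * (2 * k + 2) ≤ G.card * G.card := Nat.mul_le_mul_left _ hc
  have h3 : G.card * (2 * k + 2) = G.card * k + G.card * k + 2 * G.card := by ring
  omega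

/-- the finite set of the classes with small units -/
lemma sm_fin (hn : φ (-1) = 1) (k : ℕ) :
    ∃ E : Finset A, (∀ g, g ∈ E ↔ Sm φ k g) ∧ E.card ≤ 2 * k + 1 := by
  have hf : {g : A | Sm φ k g}.Finite := by
    by_contra hc
    obtain ⟨t, ht, htc⟩ := (Set.not_finite.1 hc : Set.Infinite _).exists_subset_card_eq (2 * k + 2)
    have := sm_card hn k t fun g hg => ht hg
    omega
  refine ⟨hf.toFinset, fun g => by rw [Set.Finite.mem_toFinset]; rfl, sm_card hn k _ fun g hg => ?_⟩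
  exact (Set.Finite.mem_toFinset hf).1 hg

lemma nr_rep (hn : φ (-1) = 1) (hL : HL φ M) {b : A} (hb : b ∈ NR φ) :
    b ≠ 1 ∧ ∃ r s : Fˣ, φ r = b ∧ (r : F) + s = 1 ∧ φ s ≠ 1 ∧ φ s ≠ b ∧ En φ M r := by
  obtain ⟨hb1, r, s, hr, hrs, hs1, hs2⟩ := hb
  refine ⟨hb1, r, s, hr, hrs, hs1, hs2, ?_⟩
  exact (t_CALC F A φ M hn hL).2.2 r s hrs (by rw [hr]; exact hb1) hs1 (by rw [hr]; exact hs2)

lemma nr_en (hn : φ (-1) = 1) (hL : HL φ M) {r : Fˣ} (hr : Nr φ r) : En φ M r := by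
  obtain ⟨hr1, s, hrs, hs1, hs2⟩ := hr
  exact (t_CALC F A φ M hn hL).2.2 r s hrs hr1 hs1 hs2

lemma nr_inv (hn : φ (-1) = 1) {r : Fˣ} (hr : Nr φ r) : Nr φ r⁻¹ := by
  obtain ⟨hr1, s, hrs, hs1, hs2⟩ := hr
  have hv : φ (-(s / r)) = φ s / φ r := by rw [phi_neg hn, map_div]
  refine ⟨by rw [map_inv]; exact fun e => hr1 (inv_eq_one.1 e), -(s / r), ?_, ?_, ?_⟩
  · have h0 : (r : F) ≠ 0 := r.ne_zero
    rw [Units.val_neg, Units.val_inv_eq_inv_val, Units.val_div_eq_div_val]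
    field_simp
    linear_combination -hrs
  · rw [hv]
    exact fun e => hs2 (div_eq_one.1 e)
  · rw [hv, map_inv, div_eq_mul_inv]
    exact fun e => hs1 (mul_eq_right.1 e)

lemma nr_w {r : Fˣ} (hr : Nr φ r) : r ∈ Wg φ := Subgroup.subset_closure hr

lemma le_inv_iff {k : ℕ} {y : Fˣ} : Le φ k 1 y⁻¹ ↔ Le φ k y 1 := by
  rw [← le_mul_iff y, mul_one, mul_inv_cancel]

lemma inv_le_iff {k : ℕ} {y : Fˣ} : Le φ k y⁻¹ 1 ↔ Le φ k 1 y := by
  rw [← le_inv_iff, inv_inv]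

lemma mul_left1 {k l : ℕ} {y z : Fˣ} (hy : Le φ k 1 y) (hz : Le φ l 1 z) :
    Le φ (k + l) 1 (y * z) := by
  have h1 := le_mul y hz
  rw [mul_one] at h1
  exact le_tr hy h1

lemma mul_right1 {k l : ℕ} {y z : Fˣ} (hy : Le φ k y 1) (hz : Le φ l z 1) :
    Le φ (k + l) (y * z) 1 := by
  have h1 := le_mul y hz
  rw [mul_one] at h1
  rw [add_comm]
  exact le_tr h1 hy

/-- a unit is a quotient of elements that are not rigid -/
lemma boot (h : RB φ M) {k l : ℕ} (E₀ : Finset A) (hk : k + l + E₀.card ≤ 4 * M) {y : Fˣ}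
    (hy1 : Le φ k 1 y) (hy2 : Le φ l y 1) : ∃ c : Fˣ, Nr φ c ∧ Nr φ (y * c) ∧ φ c ∉ E₀ := by
  classical
  obtain ⟨B, hBc, hB⟩ := hy1
  obtain ⟨B', hBc', hB'⟩ := le_inv_iff.2 hy2
  let E : Finset A := ({(φ y)⁻¹} ∪ E₀) ∪
    ((B.image fun g => (φ y)⁻¹ * g) ∪ (B'.image fun g => (φ y)⁻¹ * g⁻¹))
  have hE : E.card ≤ 4 * M + 1 := by
    have h1 : E.card ≤ ({(φ y)⁻¹} ∪ E₀).card +
        ((B.image fun g => (φ y)⁻¹ * g) ∪ (B'.image fun g => (φ y)⁻¹ * g⁻¹)).card :=
      Finset.card_union_le _ _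
    have h2 := Finset.card_union_le {(φ y)⁻¹} E₀
    have h3 := Finset.card_union_le (B.image fun g => (φ y)⁻¹ * g)
      (B'.image fun g => (φ y)⁻¹ * g⁻¹)
    have h4 : (B.image fun g => (φ y)⁻¹ * g).card ≤ B.card := Finset.card_image_le
    have h5 : (B'.image fun g => (φ y)⁻¹ * g⁻¹).card ≤ B'.card := Finset.card_image_le
    rw [Finset.card_singleton] at h2
    omega
  obtain ⟨b, hb, hbE⟩ := h.big E hE
  obtain ⟨hb1, c, s, rfl, hcs, hs1, hs2⟩ := hb
  simp only [E, Finset.mem_union, Finset.mem_singleton, Finset.mem_image, not_or, not_exists,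
    not_and] at hbE
  obtain ⟨⟨hb2, hb3⟩, hb4, hb5⟩ := hbE
  have hyc : φ (y * c) ≠ 1 := by
    rw [map_mul]
    exact fun e => hb2 (eq_inv_of_mul_eq_one_right e)
  obtain ⟨v, hv⟩ := exists_one_add h.neg (y := -(y * c)) (by rw [phi_neg h.neg]; exact hyc)
  refine ⟨c, ⟨hb1, s, hcs, hs1, hs2⟩, ⟨hyc, v, by rw [hv, Units.val_neg]; ring, ?_, ?_⟩, hb3⟩
  · intro e
    have h1 : Ml φ (-(y * c)) 1 := ⟨v, by rw [hv, Units.val_one], by rw [e, map_one]⟩
    obtain ⟨z, hz, ez⟩ := hB (-(y * c)) (by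
      rw [phi_neg h.neg]
      exact fun h3 => hb4 _ h3 (by rw [map_mul, inv_mul_cancel_left])) h1
    have h2 : z = y * s := Units.ext (by
      rw [hz, Units.val_neg, Units.val_mul, Units.val_mul]
      linear_combination (-(y : F)) * hcs)
    rw [h2, map_mul] at ez
    exact hs1 (mul_eq_left.1 ez)
  · intro e
    have hyc' : φ (-(y * c)⁻¹) ∉ B' := by
      rw [phi_neg h.neg]
      exact fun h3 => hb5 _ h3 (by rw [map_inv, inv_inv, map_mul, inv_mul_cancel_left])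
    have h0 : (y : F) ≠ 0 := y.ne_zero
    have h0' : (c : F) ≠ 0 := c.ne_zero
    have h1 : Ml φ (-(y * c)⁻¹) 1 := by
      refine ⟨-(v / (y * c)), ?_, by rw [phi_neg h.neg, map_div, e, div_self', map_one]⟩
      rw [Units.val_neg, Units.val_div_eq_div_val, hv, Units.val_one, Units.val_neg, Units.val_neg,
        Units.val_inv_eq_inv_val, Units.val_mul]
      field_simp
      ring
    obtain ⟨z, hz, ez⟩ := hB' _ hyc' h1
    have h3 : z = -(y⁻¹ * (s / c)) := Units.ext (by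
      rw [hz, Units.val_neg, Units.val_neg, Units.val_mul, Units.val_inv_eq_inv_val,
        Units.val_inv_eq_inv_val, Units.val_div_eq_div_val, Units.val_mul]
      field_simp
      linear_combination hcs)
    rw [h3, phi_neg h.neg, map_mul] at ez
    have h4 := mul_eq_left.1 ez
    rw [map_div, div_eq_one] at h4
    exact hs2 h4

/-- units of small cost -/
lemma boot_w (h : RB φ M) {k l : ℕ} (hk : k + l ≤ 4 * M) {y : Fˣ} (hy1 : Le φ k 1 y)
    (hy2 : Le φ l y 1) : y ∈ Wg φ ∧ En φ (2 * M) y := by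
  obtain ⟨c, hc, hyc, -⟩ := boot h ∅ (by rw [Finset.card_empty]; exact hk) hy1 hy2
  have h1 := en_mul (nr_en h.neg h.hl hyc) (en_inv (nr_en h.neg h.hl hc))
  rw [mul_inv_cancel_right, ← two_mul] at h1
  refine ⟨?_, h1⟩
  have h2 := mul_mem (nr_w hyc) (inv_mem (nr_w hc))
  rwa [mul_inv_cancel_right] at h2

/-- comparability -/
lemma dich1 (h : RB φ M) {y : Fˣ} (hy : φ y ≠ 1) : Le φ M 1 y ∨ Le φ M y 1 := by
  obtain ⟨v, hv⟩ := exists_one_add h.neg (y := -y) (by rw [phi_neg h.neg]; exact hy)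
  have hv' : (v : F) = 1 - y := by rw [hv, Units.val_neg]; ring
  by_cases hvy : φ v = φ y
  · left
    refine (h.hl 1 (-v) y ?_ ?_).1
    · rw [Units.val_neg, Units.val_one, hv']; ring
    · rw [map_one, phi_neg h.neg, hvy]; exact fun e => hy e.symm
  · right
    refine (h.hl y v 1 ?_ (fun e => hvy e.symm)).1
    rw [Units.val_one, hv']; ring

/-- two-sided version of `boot_w` for elements of nontrivial class -/
lemma boot3 (h : RB φ M) {k l : ℕ} (hk : k ≤ 3 * M) (hl : l ≤ 3 * M) {y : Fˣ} (hy : φ y ≠ 1)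
    (hy1 : Le φ k 1 y) (hy2 : Le φ l y 1) : y ∈ Wg φ ∧ En φ (2 * M) y := by
  rcases dich1 h hy with h1 | h1
  · exact boot_w h (k := M) (l := l) (by omega) h1 hy2
  · exact boot_w h (k := k) (l := M) (by omega) hy1 h1

/-- choice of an element that is not rigid -/
lemma exists_nr (h : RB φ M) (E : Finset A) (hE : E.card ≤ 4) : ∃ c : Fˣ, Nr φ c ∧ φ c ∉ E := by
  have hpos := h.pos
  obtain ⟨b, hb, hbE⟩ := h.big E (by omega)
  obtain ⟨hb1, c, s, rfl, hcs, hs1, hs2⟩ := hb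
  exact ⟨c, ⟨hb1, s, hcs, hs1, hs2⟩, hbE⟩

lemma mul1 (h : RB φ M) {y c : Fˣ} (hy : En φ (2 * M) y) (hc : En φ M c) (hyc : φ (y * c) ≠ 1) :
    En φ (2 * M) (y * c) :=
  (boot3 h (k := 2 * M + M) (l := 2 * M + M) (by omega) (by omega) hyc (mul_left1 hy.1 hc.1)
    (mul_right1 hy.2 hc.2)).2

lemma mul2 (h : RB φ M) {y c d : Fˣ} (hy : En φ (2 * M) y) (hy1 : φ y ≠ 1) (hc : En φ M c)
    (hd : En φ M d) (hcd : φ (y * c * d) ≠ 1) : En φ (2 * M) (y * c * d) := by
  by_cases h1 : φ (y * c) ≠ 1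
  · exact mul1 h (mul1 h hy hc h1) hd hcd
  by_cases h2 : φ (y * d) ≠ 1
  · have h3 := mul1 h (mul1 h hy hd h2) hc (by rwa [mul_right_comm])
    rwa [mul_right_comm] at h3
  push Not at h1 h2
  have hpos := h.pos
  have key : ∃ e : Fˣ, Nr φ e ∧ Nr φ (y * e) ∧ φ e ∉ ({(φ d)⁻¹} : Finset A) := by
    rcases dich1 h hy1 with h3 | h3
    · exact boot h _ (k := M) (l := 2 * M) (by rw [Finset.card_singleton]; omega) h3 hy.2
    · exact boot h _ (k := 2 * M) (l := M) (by rw [Finset.card_singleton]; omega) hy.1 h3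
  obtain ⟨e, he, hye, hed⟩ := key
  rw [Finset.mem_singleton] at hed
  have h4 : φ (y * e * c) ≠ 1 := by
    rw [mul_right_comm, map_mul, h1, one_mul]
    exact he.1
  have h5 := mul1 h (en_mono (by omega) (nr_en h.neg h.hl hye)) hc h4
  have h6 : φ (y * e * c * d) ≠ 1 := by
    have h7 : y * e * c * d = (y * c) * (e * d) := by ac_rfl
    rw [h7, map_mul, h1, one_mul, map_mul]
    exact fun h8 => hed (eq_inv_of_mul_eq_one_left h8)
  have h7 := mul1 h h5 hd h6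
  have h8 : y * e * c * d * e⁻¹ = y * c * d := mul_inv_eq_iff_eq_mul.2 (by ac_rfl)
  have h9 := mul1 h h7 (en_inv (nr_en h.neg h.hl he)) (by rw [h8]; exact hcd)
  rwa [h8] at h9

/-- the elements of `W` -/
lemma w_main (h : RB φ M) {y : Fˣ} (hy : y ∈ Wg φ) : (φ y ≠ 1 → En φ (2 * M) y) ∧
    (φ y = 1 → y = 1 ∨ ∃ z c : Fˣ, y = z * c ∧ φ z ≠ 1 ∧ En φ (2 * M) z ∧ Nr φ c) := by
  have step : ∀ y c : Fˣ, Nr φ c → ((φ y ≠ 1 → En φ (2 * M) y) ∧
      (φ y = 1 → y = 1 ∨ ∃ z c : Fˣ, y = z * c ∧ φ z ≠ 1 ∧ En φ (2 * M) z ∧ Nr φ c)) →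
      ((φ (y * c) ≠ 1 → En φ (2 * M) (y * c)) ∧ (φ (y * c) = 1 → y * c = 1 ∨
        ∃ z c' : Fˣ, y * c = z * c' ∧ φ z ≠ 1 ∧ En φ (2 * M) z ∧ Nr φ c')) := by
    rintro y c hc ⟨ih1, ih2⟩
    have hcE := nr_en h.neg h.hl hc
    constructor
    · intro hyc
      by_cases hy : φ y = 1
      · rcases ih2 hy with rfl | ⟨z, d, rfl, hz1, hz2, hd⟩
        · rw [one_mul]
          exact en_mono (by omega) hcE
        · exact mul2 h hz2 hz1 (nr_en h.neg h.hl hd) hcE hyc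
      · exact mul1 h (ih1 hy) hcE hyc
    · intro hyc
      have hy : φ y ≠ 1 := by
        intro e
        rw [map_mul, e, one_mul] at hyc
        exact hc.1 hyc
      exact Or.inr ⟨y, c, rfl, hy, ih1 hy, hc⟩
  induction hy using Subgroup.closure_induction_right with
  | one => exact ⟨fun h1 => absurd (map_one φ) h1, fun _ => Or.inl rfl⟩
  | mul_right y _ c hc ih => exact step y c hc ih
  | mul_inv_cancel y _ c hc ih => exact step y c⁻¹ (nr_inv h.neg hc) ih

lemma w_en (h : RB φ M) {y : Fˣ} (hy : y ∈ Wg φ) (hy1 : φ y ≠ 1) : En φ (2 * M) y :=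
  (w_main h hy).1 hy1

/-- the elements `y ≤ 1` -/
def Ql {F : Type} [Field F] {A : Type} [CommGroup A] (φ : Fˣ →* A) (M : ℕ) (y : Fˣ) : Prop :=
  ∃ w ∈ Wg φ, φ (y * w) ≠ 1 ∧ Le φ M (y * w) 1

lemma q_mul_w {y w : Fˣ} (hy : Ql φ M y) (hw : w ∈ Wg φ) : Ql φ M (y * w) := by
  obtain ⟨v, hv, h1, h2⟩ := hy
  have h3 : y * w * (w⁻¹ * v) = y * v := by rw [mul_assoc, mul_inv_cancel_left]
  exact ⟨w⁻¹ * v, mul_mem (inv_mem hw) hv, by rw [h3]; exact h1, by rw [h3]; exact h2⟩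

lemma q_of_le (h : RB φ M) {k : ℕ} (hk : k ≤ 2 * M) {y : Fˣ} (hy : Le φ k y 1) : Ql φ M y := by
  obtain ⟨c, hc, hcE⟩ := exists_nr h {(φ y)⁻¹} (by rw [Finset.card_singleton]; omega)
  rw [Finset.mem_singleton] at hcE
  have h1 : φ (y * c) ≠ 1 := by
    rw [map_mul]
    exact fun e => hcE (eq_inv_of_mul_eq_one_right e)
  rcases dich1 h h1 with h2 | h2
  · have h3 := (boot_w h (k := M) (l := k + M) (by omega) h2
      (mul_right1 hy (nr_en h.neg h.hl hc).2)).1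
    have h4 := mul_mem h3 (inv_mem (nr_w hc))
    rw [mul_inv_cancel_right] at h4
    refine ⟨y⁻¹ * c, mul_mem (inv_mem h4) (nr_w hc), ?_, ?_⟩
    · rw [mul_inv_cancel_left]; exact hc.1
    · rw [mul_inv_cancel_left]; exact (nr_en h.neg h.hl hc).2
  · exact ⟨c, nr_w hc, h1, h2⟩

lemma q_one (h : RB φ M) : Ql φ M 1 := q_of_le h (Nat.zero_le _) (le_refl' _ _)

lemma u_q (h : RB φ M) {y : Fˣ} (hy : y ∈ Wg φ) : Ql φ M y := by
  have := q_mul_w (q_one h) hy
  rwa [one_mul] at this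

lemma dich (h : RB φ M) (y : Fˣ) : Ql φ M y ∨ Ql φ M y⁻¹ := by
  obtain ⟨c, hc, hcE⟩ := exists_nr h {(φ y)⁻¹} (by rw [Finset.card_singleton]; omega)
  rw [Finset.mem_singleton] at hcE
  have h1 : φ (y * c) ≠ 1 := by
    rw [map_mul]
    exact fun e => hcE (eq_inv_of_mul_eq_one_right e)
  rcases dich1 h h1 with h2 | h2
  · right
    refine ⟨c⁻¹, inv_mem (nr_w hc), ?_, ?_⟩
    · rw [← mul_inv, map_inv]
      exact fun e => h1 (inv_eq_one.1 e)
    · rw [← mul_inv, inv_le_iff]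
      exact h2
  · left
    exact ⟨c, nr_w hc, h1, h2⟩

/-- `y` and `y⁻¹` are both at most `1` for units only -/
lemma u_of (h : RB φ M) {y : Fˣ} (h1 : Ql φ M y) (h2 : Ql φ M y⁻¹) : y ∈ Wg φ := by
  obtain ⟨w₂, hw₂, h3, h4⟩ := h1
  obtain ⟨w₁, hw₁, h5, h6⟩ := h2
  set z := y * w₁⁻¹ with hz
  have hzi : z⁻¹ = y⁻¹ * w₁ := by rw [hz, mul_inv, inv_inv]
  rw [← hzi] at h5 h6
  rw [inv_le_iff] at h6
  set w := w₁ * w₂ with hw
  have hwW : w ∈ Wg φ := mul_mem hw₁ hw₂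
  have hzw : z * w = y * w₂ := by rw [hz, hw, mul_assoc, inv_mul_cancel_left]
  rw [← hzw] at h3 h4
  suffices hs : z ∈ Wg φ by
    have := mul_mem hs hw₁
    rwa [hz, inv_mul_cancel_right] at this
  have key : ∀ w : Fˣ, w ∈ Wg φ → φ w ≠ 1 → Le φ M (z * w) 1 → z ∈ Wg φ := by
    intro w hw hw1 hzw
    refine (boot_w h (k := M) (l := M + 2 * M) (by omega) h6 ?_).1
    have h7 := mul_right1 hzw (en_inv (w_en h hw hw1)).2
    rwa [mul_inv_cancel_right] at h7
  by_cases hw1 : φ w = 1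
  · obtain ⟨c, hc, hcE⟩ := exists_nr h {φ (z * w)} (by rw [Finset.card_singleton]; omega)
    rw [Finset.mem_singleton] at hcE
    have hci := nr_inv h.neg hc
    have hw' : w * c⁻¹ ∈ Wg φ := mul_mem hwW (nr_w hci)
    have hw'1 : φ (w * c⁻¹) ≠ 1 := by
      rw [map_mul, hw1, one_mul]
      exact hci.1
    have h7 : φ (z * (w * c⁻¹)) ≠ 1 := by
      rw [← mul_assoc, map_mul, map_inv]
      exact fun e => hcE (mul_inv_eq_one.1 e).symm
    rcases dich1 h h7 with h8 | h8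
    · have h9 : z * (w * c⁻¹) ∈ Wg φ := (boot_w h (k := M) (l := M + M) (by omega) h8 (by
        rw [← mul_assoc]
        exact mul_right1 h4 (nr_en h.neg h.hl hci).2)).1
      have h10 := mul_mem h9 (inv_mem hw')
      rwa [mul_inv_cancel_right] at h10
    · exact key _ hw' hw'1 h8
  · exact key w hwW hw1 h4

lemma q_mul (h : RB φ M) {y z : Fˣ} (hy : Ql φ M y) (hz : Ql φ M z) : Ql φ M (y * z) := by
  obtain ⟨v, hv, h1, h2⟩ := hy
  obtain ⟨w, hw, h3, h4⟩ := hz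
  obtain ⟨c, hc, hcE⟩ := exists_nr h {(φ (y * v * (z * w)))⁻¹}
    (by rw [Finset.card_singleton]; omega)
  rw [Finset.mem_singleton] at hcE
  have h5 : φ (y * v * (z * w) * c) ≠ 1 := by
    rw [map_mul]
    exact fun e => hcE (eq_inv_of_mul_eq_one_right e)
  have hfin : Ql φ M (y * v * (z * w)) → Ql φ M (y * z) := by
    intro h6
    have h7 := q_mul_w h6 (inv_mem (mul_mem hv hw))
    have h8 : y * v * (z * w) * (v * w)⁻¹ = y * z := mul_inv_eq_iff_eq_mul.2 (by ac_rfl)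
    rwa [h8] at h7
  apply hfin
  rcases dich1 h h5 with h6 | h6
  · -- `z w` is a unit
    have h7 : Le φ (M + M) 1 (z * w * c) := by
      refine le_tr h6 ?_
      have h8 := le_mul (z * w * c) h2
      rw [mul_one] at h8
      have h9 : z * w * c * (y * v) = y * v * (z * w) * c := by ac_rfl
      rwa [h9] at h8
    have h8 : Le φ (M + M + M) 1 (z * w) := by
      have h9 := mul_left1 h7 (nr_en h.neg h.hl (nr_inv h.neg hc)).1
      rwa [mul_inv_cancel_right] at h9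
    have h9 := (boot_w h (k := M + M + M) (l := M) (by omega) h8 h4).1
    exact q_mul_w ⟨v⁻¹ * v, mul_mem (inv_mem hv) hv, by
      rw [inv_mul_cancel, mul_one]; exact h1, by rw [inv_mul_cancel, mul_one]; exact h2⟩ h9
  · exact ⟨c, nr_w hc, h5, h6⟩

lemma q_pow (h : RB φ M) {y : Fˣ} (hy : Ql φ M y) (n : ℕ) : Ql φ M (y ^ n) := by
  induction n with
  | zero => rw [pow_zero]; exact q_one h
  | succ n ih => rw [pow_succ]; exact q_mul h ih hy

/-- roots of unity are units -/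
lemma u_root (h : RB φ M) {e : Fˣ} {n : ℕ} (hn : 1 ≤ n) (he : e ^ n = 1) : e ∈ Wg φ := by
  have key : ∀ e : Fˣ, e ^ n = 1 → Ql φ M e → e ∈ Wg φ := by
    intro e he h1
    refine u_of h h1 ?_
    have h2 := q_pow h h1 (n - 1)
    have h3 : e ^ (n - 1) = e⁻¹ := by
      rw [eq_inv_iff_mul_eq_one, ← pow_succ, Nat.sub_add_cancel hn, he]
    rwa [h3] at h2
  rcases dich h e with h1 | h1
  · exact key e he h1
  · have := inv_mem (key e⁻¹ (by rw [inv_pow, he, inv_one]) h1)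
    rwa [inv_inv] at this

lemma u_neg_one (h : RB φ M) : (-1 : Fˣ) ∈ Wg φ :=
  u_root h (n := 2) (by norm_num) (by rw [neg_one_sq])

lemma u_neg (h : RB φ M) {y : Fˣ} (hy : y ∈ Wg φ) : -y ∈ Wg φ := by
  rw [← neg_one_mul]
  exact mul_mem (u_neg_one h) hy

/-- sums of units of different classes -/
lemma u_add (h : RB φ M) {y z : Fˣ} (hy : y ∈ Wg φ) (hz : z ∈ Wg φ)
    (hyz : φ y ≠ φ z) : ∃ x : Fˣ, (x : F) = y + z ∧ x ∈ Wg φ := by
  have h1 : φ (z / y) ≠ 1 := by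
    rw [map_div]
    exact fun e => hyz (div_eq_one.1 e).symm
  obtain ⟨x, hx⟩ := exists_one_add h.neg h1
  have hx1 : Le φ M 1 x := (forw h.hl hx h1).1
  have hx2 : Le φ (3 * M) x 1 := by
    by_cases hx3 : φ x = 1
    · exact le_mono (by omega) (back' h.neg h.hl hx hx3 h1)
    · exact le_mono (by omega) (le_tr (back h.neg h.hl hx hx3) (w_en h (div_mem hz hy) h1).2)
  refine ⟨y * x, ?_, mul_mem hy (boot_w h (k := M) (l := 3 * M) (by omega) hx1 hx2).1⟩
  rw [Units.val_mul, hx, Units.val_div_eq_div_val]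
  have : (y : F) ≠ 0 := y.ne_zero
  field_simp

/-- `1 + y` for `y ≤ 1`, first case -/
lemma q_one_add_aux (h : RB φ M) {y z : Fˣ} (hy : Ql φ M y) (hz : (z : F) = 1 + y)
    (hc : φ z ≠ 1 ∨ φ y ≠ 1) : Ql φ M z := by
  by_cases hz1 : φ z = 1
  · rcases hc with hc | hc
    · exact absurd hz1 hc
    · exact q_of_le h (show M ≤ 2 * M by omega) (back' h.neg h.hl hz hz1 hc)
  · have h1 : Le φ M z y := back h.neg h.hl hz hz1
    have h2 := le_mul y⁻¹ h1
    rw [inv_mul_cancel] at h2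
    have h3 := q_mul h (q_of_le h (show M ≤ 2 * M by omega) h2) hy
    have h4 : y⁻¹ * z * y = z := by rw [mul_comm, mul_inv_cancel_left]
    rwa [h4] at h3

lemma q_one_add (h : RB φ M) {y z : Fˣ} (hy : Ql φ M y) (hz : (z : F) = 1 + y) :
    Ql φ M z := by
  by_cases hc : φ z ≠ 1 ∨ φ y ≠ 1
  · exact q_one_add_aux h hy hz hc
  push Not at hc
  obtain ⟨hz1, hy1⟩ := hc
  obtain ⟨r, hr, -⟩ := exists_nr h ∅ (by rw [Finset.card_empty]; omega)
  have hrW := nr_w hr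
  obtain ⟨hr1, s, hrs, hs1, hsr⟩ := hr
  set c := -r with hcdef
  have hcW : c ∈ Wg φ := u_neg h hrW
  have hφc : φ c = φ r := phi_neg h.neg r
  have hs : (s : F) = 1 + c := by rw [hcdef, Units.val_neg]; linear_combination hrs
  have hsW : s ∈ Wg φ := by
    obtain ⟨x, hx, hxW⟩ := u_add h (one_mem (Wg φ)) hcW
      (by rw [map_one, hφc]; exact fun e => hr1 e.symm)
    have : x = s := Units.ext (by rw [hx, hs, Units.val_one])
    rwa [this] at hxW
  -- `v = 1 + c z = s + c y`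
  obtain ⟨v, hv⟩ := exists_one_add h.neg (y := c * z) (by
    rw [map_mul, hz1, mul_one, hφc]; exact hr1)
  have h1 : Le φ M (c * z) v := (forw h.hl hv (by
    rw [map_mul, hz1, mul_one, hφc]; exact hr1)).2
  have h2 : Ql φ M (c * y / s) := by
    rw [div_eq_mul_inv]
    exact q_mul h (q_mul h (u_q h hcW) hy) (u_q h (inv_mem hsW))
  have h3 : Ql φ M (v / s) := by
    refine q_one_add_aux h h2 ?_ (Or.inr ?_)
    · rw [Units.val_div_eq_div_val, Units.val_div_eq_div_val, hv, Units.val_mul, Units.val_mul, hz]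
      have h0 : (s : F) ≠ 0 := s.ne_zero
      rw [eq_comm]
      field_simp
      rw [hs]
      ring
    · rw [map_div, map_mul, hy1, mul_one, hφc]
      exact fun e => hsr (div_eq_one.1 e).symm
  have h4 : Ql φ M v := by
    have := q_mul_w h3 hsW
    rwa [div_mul_cancel] at this
  have h5 : Ql φ M (c * z * v⁻¹) := by
    have := le_mul v⁻¹ h1
    rw [inv_mul_cancel, mul_comm] at this
    exact q_of_le h (show M ≤ 2 * M by omega) this
  have h6 := q_mul_w (q_mul h h5 h4) (inv_mem hcW)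
  have h7 : c * z * v⁻¹ * v * c⁻¹ = z := by
    rw [inv_mul_cancel_right, mul_comm, inv_mul_cancel_left]
  rwa [h7] at h6

/-- the valuation ring -/
def OO (φ : Fˣ →* A) (M : ℕ) : Set F := {x | x = 0 ∨ ∃ y : Fˣ, (y : F) = x ∧ Ql φ M y}

lemma oo_add_aux (h : RB φ M) {x y : Fˣ} (hx : Ql φ M x)
    (hyx : Ql φ M (y / x)) : (x : F) + y ∈ OO φ M := by
  by_cases h0 : (x : F) + y = 0
  · exact Or.inl h0
  · right
    have h1 : (1 : F) + (y / x : Fˣ) ≠ 0 := by
      intro e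
      apply h0
      rw [Units.val_div_eq_div_val] at e
      have h3 : (x : F) ≠ 0 := x.ne_zero
      have h4 : (x : F) + y = x * (1 + (y : F) / x) := by field_simp
      rw [h4, e, mul_zero]
    refine ⟨x * Units.mk0 _ h1, ?_, q_mul h hx (q_one_add h hyx (Units.val_mk0 _))⟩
    rw [Units.val_mul, Units.val_mk0, Units.val_div_eq_div_val]
    have : (x : F) ≠ 0 := x.ne_zero
    field_simp

lemma oo_add (h : RB φ M) : ∀ x ∈ OO φ M, ∀ y ∈ OO φ M, x + y ∈ OO φ M := by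
  rintro x (rfl | ⟨x, rfl, hx⟩) y (rfl | ⟨y, rfl, hy⟩)
  · rw [add_zero]; exact Or.inl rfl
  · rw [zero_add]; exact Or.inr ⟨y, rfl, hy⟩
  · rw [add_zero]; exact Or.inr ⟨x, rfl, hx⟩
  · rcases dich h (y / x) with h1 | h1
    · exact oo_add_aux h hx h1
    · rw [add_comm]
      refine oo_add_aux h hy ?_
      rwa [inv_div] at h1

/-- differences of non-units are not units -/
lemma sub_nonunit (h : RB φ M) {x y u : Fˣ} (hx : Ql φ M x) (hy : Ql φ M y)
    (hxu : x ∉ Wg φ) (hyu : y ∉ Wg φ) (hu : u ∈ Wg φ)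
    (e : (x : F) - y = u) : False := by
  have key : ∀ x y u : Fˣ, Ql φ M y → y ∉ Wg φ → u ∈ Wg φ →
      (x : F) - y = u → Ql φ M (x / y) → False := by
    intro x y u hy hyu hu e h1
    apply hyu
    have h2 : Ql φ M (-(u / y)) := by
      refine q_one_add h (y := -(x / y)) ?_ ?_
      · rw [← neg_one_mul]
        exact q_mul h (u_q h (u_neg_one h)) h1
      · rw [Units.val_neg, Units.val_neg, Units.val_div_eq_div_val, Units.val_div_eq_div_val, ← e]
        have : (y : F) ≠ 0 := y.ne_zero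
        field_simp
        ring
    have h3 := q_mul_w h2 (inv_mem (u_neg h hu))
    have h4 : -(u / y) * (-u)⁻¹ = y⁻¹ := by
      rw [inv_neg, neg_mul_neg, div_mul_eq_mul_div, mul_inv_cancel, one_div]
    rw [h4] at h3
    exact u_of h hy h3
  rcases dich h (x / y) with h1 | h1
  · exact key x y u hy hyu hu e h1
  · refine key y x (-u) hx hxu (u_neg h hu) (by rw [Units.val_neg, ← e]; ring) ?_
    rwa [inv_div] at h1

end

end Pool.Agent.V7H79.EU
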