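import Mathlib
import Pool.Agent.V7H79.EU.Units

set_option autoImplicit false

/-! The valuation ring of the units, and the case in which the residue field has a torsion unit
group. -/

namespace Pool.Agent.V7H79.EU

open Pool.Agent.Y920.EP Pool.Agent.Y705.EP

section

variable {F : Type} [Field F] {A : Type} [CommGroup A] {φ : Fˣ →* A} {M m : ℕ}

/-- the valuation ring -/
def vr (h : RB φ M) : ValuationSubring F where
  carrier := OO φ M
  mul_mem' := by
    rintro x y (rfl | ⟨x, rfl, hx⟩) (rfl | ⟨y, rfl, hy⟩)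
    · left; rw [zero_mul]
    · left; rw [zero_mul]
    · left; rw [mul_zero]
    · exact Or.inr ⟨x * y, by rw [Units.val_mul], q_mul h hx hy⟩
  one_mem' := Or.inr ⟨1, Units.val_one, q_one h⟩
  add_mem' := fun {x y} hx hy => oo_add h x hx y hy
  zero_mem' := Or.inl rfl
  neg_mem' := by
    rintro x (rfl | ⟨x, rfl, hx⟩)
    · left; rw [neg_zero]
    · refine Or.inr ⟨-x, by rw [Units.val_neg], ?_⟩
      rw [← neg_one_mul]
      exact q_mul h (u_q h (u_neg_one h)) hx
  mem_or_inv_mem' := by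
    intro x
    by_cases hx : x = 0
    · exact Or.inl (Or.inl hx)
    · rcases dich h (Units.mk0 x hx) with h1 | h1
      · left
        exact Or.inr ⟨Units.mk0 x hx, Units.val_mk0 _, h1⟩
      · right
        exact Or.inr ⟨(Units.mk0 x hx)⁻¹, by rw [Units.val_inv_eq_inv_val, Units.val_mk0], h1⟩

lemma mem_vr (h : RB φ M) (y : Fˣ) : (y : F) ∈ vr h ↔ Ql φ M y := by
  constructor
  · rintro (h1 | ⟨z, hz, h1⟩)
    · exact absurd h1 y.ne_zero
    · rwa [Units.ext hz] at h1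
  · exact fun h1 => Or.inr ⟨y, rfl, h1⟩

lemma unit_iff (h : RB φ M) (y : Fˣ) (hy : (y : F) ∈ vr h) :
    IsUnit (⟨y, hy⟩ : vr h) ↔ y ∈ Wg φ := by
  constructor
  · intro hu
    obtain ⟨z, hz⟩ := hu.exists_right_inv
    have h1 : (y : F) * z = 1 := congrArg Subtype.val hz
    have h2 : (y⁻¹ : Fˣ) = (z : F) := by
      rw [Units.val_inv_eq_inv_val]
      exact inv_eq_of_mul_eq_one_right h1
    have h3 : ((y⁻¹ : Fˣ) : F) ∈ vr h := by rw [h2]; exact z.2
    rw [mem_vr] at h3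
    exact u_of h ((mem_vr h y).1 hy) h3
  · intro hE
    have h1 : ((y⁻¹ : Fˣ) : F) ∈ vr h := (mem_vr h _).2 (u_q h (inv_mem hE))
    refine IsUnit.of_mul_eq_one ⟨_, h1⟩ (Subtype.ext ?_)
    show (y : F) * (y⁻¹ : Fˣ) = 1
    rw [← Units.val_mul, mul_inv_cancel, Units.val_one]

/-- if no power of a unit is independent of `1` then the units have few classes -/
lemma card_torsion (h : RB φ M) (hm : 1 ≤ m) (hexp : ∀ x : Fˣ, φ x ^ m = 1)
    (ht : ∀ c : Fˣ, c ∈ Wg φ → ∃ n : ℕ, 1 ≤ n ∧ ¬ ∃ d : Fˣ, (d : F) = (c : F) ^ n - 1 ∧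
      d ∈ Wg φ) (E : Finset A) (hE : ∀ g ∈ E, ∃ y : Fˣ, φ y = g ∧ y ∈ Wg φ) :
    E.card ≤ m := by
  classical
  choose! y hy1 hy2 using hE
  have hn : ∀ g ∈ E, ∃ n : ℕ, 1 ≤ n ∧ ¬ ∃ d : Fˣ, (d : F) = (y g : F) ^ n - 1 ∧
      d ∈ Wg φ := fun g hg => ht _ (hy2 g hg)
  choose! n hn1 hn2 using hn
  set k := IsLocalRing.ResidueField (vr h) with hk
  -- elements
  have hmem : ∀ g ∈ E, (y g : F) ∈ vr h := fun g hg => (mem_vr h _).2 (u_q h (hy2 g hg))
  have hres : ∀ x : vr h, IsLocalRing.residue (vr h) x = 0 ↔ ¬ IsUnit x := fun x => by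
    rw [IsLocalRing.residue_eq_zero_iff]
    exact Iff.rfl
  have hpow : ∀ g (hg : g ∈ E), (IsLocalRing.residue (vr h) ⟨y g, hmem g hg⟩) ^ (n g) = 1 := by
    intro g hg
    rw [← sub_eq_zero, ← map_pow, ← map_one (IsLocalRing.residue (vr h)), ← map_sub, hres]
    intro hu
    apply hn2 g hg
    have h0 : ((⟨y g, hmem g hg⟩ ^ n g - 1 : vr h) : F) ≠ 0 := by
      intro e
      apply hu.ne_zero
      exact Subtype.ext e
    have hv : ((⟨y g, hmem g hg⟩ ^ n g - 1 : vr h) : F) = (y g : F) ^ n g - 1 := rfl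
    refine ⟨Units.mk0 _ h0, by rw [Units.val_mk0, hv], ?_⟩
    rw [← unit_iff h _ (by rw [Units.val_mk0]; exact Subtype.mem _)]
    exact hu
  set H := ∏ g ∈ E, n g with hH
  have hH1 : H ≠ 0 := Finset.prod_ne_zero_iff.2 fun g hg => by have := hn1 g hg; omega
  have hne : NeZero H := ⟨hH1⟩
  have hpowH : ∀ g (hg : g ∈ E), (IsLocalRing.residue (vr h) ⟨y g, hmem g hg⟩) ^ H = 1 := by
    intro g hg
    obtain ⟨l, hl⟩ := Finset.dvd_prod_of_mem n hg
    rw [← hH] at hl
    rw [hl, pow_mul, hpow g hg, one_pow]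
  obtain ⟨γ, hγ⟩ := IsCyclic.exists_generator (α := rootsOfUnity H k)
  obtain ⟨Γ, hΓ⟩ := IsLocalRing.residue_surjective (R := vr h) ((γ : kˣ) : k)
  have hΓu : IsUnit Γ := by
    by_contra hu
    rw [← hres, hΓ] at hu
    exact (γ : kˣ).ne_zero hu
  have hΓ0 : (Γ : F) ≠ 0 := fun e => hΓu.ne_zero (Subtype.ext e)
  obtain ⟨c, hc⟩ : ∃ c : Fˣ, (c : F) = Γ := ⟨Units.mk0 _ hΓ0, Units.val_mk0 _⟩
  have hcm : (c : F) ∈ vr h := by rw [hc]; exact Γ.2
  have hcΓ : (⟨c, hcm⟩ : vr h) = Γ := Subtype.ext hc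
  have hcE : c ∈ Wg φ := by
    rw [← unit_iff h c hcm, hcΓ]
    exact hΓu
  have hsub : E ⊆ (Finset.range m).image fun i => φ c ^ i := by
    intro g hg
    set r := IsLocalRing.residue (vr h) ⟨y g, hmem g hg⟩ with hr
    have hr0 : r ≠ 0 := by
      intro e
      have := hpowH g hg
      rw [← hr, e, zero_pow hH1] at this
      exact zero_ne_one this
    have h1 : Units.mk0 r hr0 ∈ rootsOfUnity H k := by
      rw [mem_rootsOfUnity]
      exact Units.ext (by rw [Units.val_pow_eq_pow_val, Units.val_mk0, hpowH g hg, Units.val_one])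
    have hfin : Finite (rootsOfUnity H k) := inferInstance
    obtain ⟨e, he⟩ := (mem_powers_iff_mem_zpowers (x := γ)
      (y := (⟨Units.mk0 r hr0, h1⟩ : rootsOfUnity H k))).2 (hγ _)
    have he' : ((γ : kˣ) : k) ^ e = r := by
      have h2 := congrArg (fun z : rootsOfUnity H k => ((z : kˣ) : k)) he
      simpa using h2
    have h3 : φ (y g) = φ (c ^ e) := by
      by_contra hne'
      obtain ⟨d, hd, hdE⟩ := u_add h (hy2 g hg) (u_neg h (pow_mem hcE e)) (by
        rwa [phi_neg h.neg])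
      have hdm : (d : F) ∈ vr h := (mem_vr h _).2 (u_q h hdE)
      have h4 : (⟨d, hdm⟩ : vr h) = ⟨y g, hmem g hg⟩ - Γ ^ e := by
        apply Subtype.ext
        show (d : F) = (y g : F) - (Γ : F) ^ e
        rw [hd, Units.val_neg, Units.val_pow_eq_pow_val, hc]
        ring
      have h5 : IsUnit (⟨d, hdm⟩ : vr h) := (unit_iff h d hdm).2 hdE
      rw [h4] at h5
      have h6 : IsLocalRing.residue (vr h) (⟨y g, hmem g hg⟩ - Γ ^ e) = 0 := by
        rw [map_sub, map_pow, hΓ, he', ← hr, sub_self]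
      exact (hres _).1 h6 h5
    rw [Finset.mem_image]
    refine ⟨e % m, Finset.mem_range.2 (Nat.mod_lt _ (by omega)), ?_⟩
    rw [← hy1 g hg, h3, map_pow]
    conv_rhs => rw [← Nat.div_add_mod e m, pow_add, pow_mul, hexp, one_pow, one_mul]
  refine (Finset.card_le_card hsub).trans (Finset.card_image_le.trans ?_)
  rw [Finset.card_range]

end

end Pool.Agent.V7H79.EU
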