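import Mathlib
import Pool.Agent.Y705.EP.Calc

set_option autoImplicit false

/-! Fields with small sum sets: the basic lemma. -/

namespace Pool.Agent.V7H79.EU

open Pool.Agent.Y920.EP Pool.Agent.Y705.EP

/-- the classes of the elements `1 + u`, `u` of class `a` -/
def Ss {F : Type} [Field F] {A : Type} [CommGroup A] (φ : Fˣ →* A) (a : A) : Set A :=
  {g | ∃ u v : Fˣ, φ u = a ∧ (v : F) = 1 + u ∧ φ v = g}

/-- the sum sets have at most `R` elements -/
structure SysR {F : Type} [Field F] {A : Type} [CommGroup A] (φ : Fˣ →* A) (R : ℕ) : Prop where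
  neg : φ (-1) = 1
  fin : ∀ a : A, a ≠ 1 → (Ss φ a).Finite ∧ (Ss φ a).ncard ≤ R

section

variable {F : Type} [Field F] {A : Type} [CommGroup A] {φ : Fˣ →* A} {R : ℕ}

lemma ss_symm (hn : φ (-1) = 1) {a g : A} (h : g ∈ Ss φ a) : a ∈ Ss φ g := by
  obtain ⟨u, v, hu, hv, hg⟩ := h
  exact ⟨-v, -u, by rw [phi_neg hn, hg], by rw [Units.val_neg, Units.val_neg, hv]; ring,
    by rw [phi_neg hn, hu]⟩

lemma ss_inv {a g : A} (h : g ∈ Ss φ a) : g / a ∈ Ss φ a⁻¹ := by
  obtain ⟨u, v, hu, hv, hg⟩ := h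
  refine ⟨u⁻¹, v / u, by rw [map_inv, hu], ?_, by rw [map_div, hg, hu]⟩
  rw [Units.val_div_eq_div_val, hv, Units.val_inv_eq_inv_val]
  field_simp
  ring

lemma exists_SF (hS : SysR φ R) : ∃ SF : A → Finset A, (∀ a, (SF a).card ≤ R) ∧
    ∀ a b, a ≠ 1 → (b ∈ SF a ↔ b ∈ Ss φ a) := by
  classical
  refine ⟨fun a => if h : a ≠ 1 then (hS.fin a h).1.toFinset else ∅, fun a => ?_,
    fun a b ha => ?_⟩
  · by_cases h : a ≠ 1
    · simp only [dif_pos h]
      rw [← Set.ncard_eq_toFinset_card _ (hS.fin a h).1]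
      exact (hS.fin a h).2
    · simp only [dif_neg h]; simp
  · simp only [dif_pos ha, Set.Finite.mem_toFinset]

lemma l1_aux' (hS : SysR φ R) {x y z : Fˣ} (hz : (z : F) = x + y) (hxy : φ x ≠ φ y) :
    Le φ ((R - 1) * R) y z := by
  classical
  have ha : φ y / φ x ≠ 1 := fun e => hxy (div_eq_one.1 e).symm
  obtain ⟨SF, hSF1, hSF2⟩ := exists_SF hS
  let D : Finset A := ((SF (φ y / φ x)).image fun n => φ x / φ z * n).erase 1
  let B : Finset A := D.biUnion fun g => (SF g).image fun n => φ z * n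
  refine ⟨B, ?_, ?_⟩
  · have h1 : B.card ≤ D.card * R := by
      refine Finset.card_biUnion_le.trans ?_
      rw [← smul_eq_mul]
      exact Finset.sum_le_card_nsmul _ _ _ fun g _ => Finset.card_image_le.trans (hSF1 g)
    have h2 : D.card ≤ R - 1 := by
      have h3 : (1 : A) ∈ (SF (φ y / φ x)).image fun n => φ x / φ z * n := by
        refine Finset.mem_image.2 ⟨φ z / φ x, (hSF2 _ _ ha).2
          ⟨y / x, z / x, by rw [map_div], ?_, by rw [map_div]⟩, ?_⟩
        · rw [Units.val_div_eq_div_val, Units.val_div_eq_div_val, hz]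
          field_simp
        · rw [div_mul_div_comm, mul_comm (φ x), div_self']
      have h4 : D.card = _ := Finset.card_erase_of_mem h3
      rw [h4]
      exact Nat.sub_le_sub_right (Finset.card_image_le.trans (hSF1 _)) 1
    exact h1.trans (Nat.mul_le_mul_right _ h2)
  · rintro w hw ⟨y', hy', e⟩
    obtain ⟨z', hz'⟩ := exists_add hS.neg (x := x) (y := y') (by rw [e]; exact hxy)
    have hz1 : (z' : F) = z + w := by rw [hz', hy', hz]; ring
    by_cases hg : φ z' = φ z
    · exact ⟨z', hz1, hg⟩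
    · exfalso
      apply hw
      have hg' : φ z' / φ z ≠ 1 := fun e => hg (div_eq_one.1 e)
      refine Finset.mem_biUnion.2 ⟨φ z' / φ z, Finset.mem_erase.2 ⟨hg', ?_⟩, ?_⟩
      · refine Finset.mem_image.2 ⟨φ z' / φ x, (hSF2 _ _ ha).2 ?_, ?_⟩
        · refine ⟨y' / x, z' / x, by rw [map_div, e], ?_, by rw [map_div]⟩
          rw [Units.val_div_eq_div_val, Units.val_div_eq_div_val, hz']
          field_simp
        · rw [div_mul_div_comm, mul_comm (φ x), mul_div_mul_right_eq_div]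
      · refine Finset.mem_image.2 ⟨φ w / φ z, (hSF2 _ _ hg').2 ?_, ?_⟩
        · refine ss_symm hS.neg ⟨w / z, z' / z, by rw [map_div], ?_, by rw [map_div]⟩
          rw [Units.val_div_eq_div_val, Units.val_div_eq_div_val, hz1]
          field_simp
        · exact mul_div_cancel _ _

/-- the basic lemma -/
theorem hl_of (hS : SysR φ R) : HL φ ((R - 1) * R) := by
  intro x y z hz hxy
  exact ⟨l1_aux' hS (by rw [hz, add_comm]) (Ne.symm hxy), l1_aux' hS hz hxy⟩

end

end Pool.Agent.V7H79.EU
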