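import Mathlib
import Pool.Agent.Y920.EP.FieldP
import Pool.Agent.V7H79.EU.Sum
import Pool.Agent.V7H79.EU.Res

set_option autoImplicit false

/-! Fields with many non-rigid classes do not exist. -/

namespace Pool.Agent.V7H79.EU

open Pool.Agent.Y920.EP Pool.Agent.Y705.EP

section

variable {F : Type} [Field F] {A : Type} [CommGroup A] {φ : Fˣ →* A} {M m : ℕ}

/-- the data used below: `c ^ (m n) - 1` is a unit for all `n ≥ 1` -/
structure Dt (φ : Fˣ →* A) (m : ℕ) (c : Fˣ) (δ : ℕ → Fˣ) : Prop where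
  unit : c ∈ Wg φ
  pow : ∀ n, φ (c ^ (m * n)) = 1
  eq : ∀ n, 1 ≤ n → (δ n : F) = (c : F) ^ (m * n) - 1
  en : ∀ n, 1 ≤ n → δ n ∈ Wg φ

lemma exists_dt (h : RB φ M) (hm : 1 ≤ m) (hexp : ∀ x : Fˣ, φ x ^ m = 1)
    (hbig : ∀ E : Finset A, E.card ≤ m → ∃ b ∈ NR φ, b ∉ E) :
    ∃ (c : Fˣ) (δ : ℕ → Fˣ), Dt φ m c δ := by
  classical
  by_cases ht : ∀ c : Fˣ, c ∈ Wg φ → ∃ n : ℕ, 1 ≤ n ∧ ¬ ∃ d : Fˣ,
      (d : F) = (c : F) ^ n - 1 ∧ d ∈ Wg φ
  · exfalso
    have hE : ∀ E : Finset A, (∀ g ∈ E, g ∈ NR φ) → E.card ≤ m := by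
      intro E hE
      refine card_torsion h hm hexp ht E fun g hg => ?_
      obtain ⟨hb1, r, s, rfl, hrs, hs1, hs2⟩ := hE g hg
      exact ⟨r, rfl, nr_w ⟨hb1, s, hrs, hs1, hs2⟩⟩
    have hf : (NR φ).Finite := by
      by_contra hc
      obtain ⟨t, ht, htc⟩ := (Set.not_finite.1 hc : Set.Infinite _).exists_subset_card_eq (m + 1)
      have := hE t fun g hg => ht hg
      omega
    obtain ⟨b, hb, hbE⟩ := hbig hf.toFinset (hE _ fun g hg => (Set.Finite.mem_toFinset hf).1 hg)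
    exact hbE ((Set.Finite.mem_toFinset hf).2 hb)
  · push Not at ht
    obtain ⟨c, hcE, hc⟩ := ht
    have h1 : ∀ n : ℕ, ∃ d : Fˣ, 1 ≤ n → (d : F) = (c : F) ^ (m * n) - 1 ∧ d ∈ Wg φ := by
      intro n
      by_cases hn : 1 ≤ n
      · obtain ⟨d, hd⟩ := hc (m * n) (Nat.one_le_iff_ne_zero.2 (Nat.mul_ne_zero (by omega)
          (by omega)))
        exact ⟨d, fun _ => hd⟩
      · exact ⟨1, fun h => absurd h hn⟩
    choose δ hδ using h1
    exact ⟨c, δ, hcE, fun n => by rw [pow_mul, map_pow, map_pow, hexp, one_pow],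
      fun n hn => (hδ n hn).1, fun n hn => (hδ n hn).2⟩

end

section

variable {F : Type} [Field F] {A : Type} [CommGroup A] {φ : Fˣ →* A} {R M m : ℕ}

/-- a class that contains a small unit -/
def Su {F : Type} [Field F] {A : Type} [CommGroup A] (φ : Fˣ →* A) (g : A) : Prop :=
  ∃ w ∈ Wg φ, φ w = g ∧ Ml φ (-w) 1

lemma su_sm (h : RB φ M) {g : A} (hg : Su φ g) (hg1 : g ≠ 1) : Sm φ (2 * M) g := by
  obtain ⟨w, hw, rfl, h1⟩ := hg
  exact ⟨w, rfl, (w_en h hw hg1).1, h1⟩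

lemma su_fin (h : RB φ M) : ∃ E : Finset A, ∀ g, g ∈ E ↔ Su φ g := by
  classical
  obtain ⟨E, hE, -⟩ := sm_fin (φ := φ) h.neg (2 * M)
  have hf : {g : A | Su φ g}.Finite := by
    refine (E.finite_toSet.union (Set.finite_singleton 1)).subset ?_
    intro g hg
    by_cases hg1 : g = 1
    · exact Or.inr hg1
    · exact Or.inl (Finset.mem_coe.2 ((hE g).2 (su_sm h hg hg1)))
  exact ⟨hf.toFinset, fun g => by rw [Set.Finite.mem_toFinset]; rfl⟩

/-- few non-rigid classes without small units -/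
lemma card_nr' (hS : SysR φ R) (h : RB φ M) {c : Fˣ} {δ : ℕ → Fˣ} (hD : Dt φ m c δ)
    (E : Finset A) (hE : ∀ g, g ∈ E ↔ Su φ g) (X : Finset A)
    (hX : ∀ b ∈ X, b ∈ NR φ ∧ b ∉ E ∧ b⁻¹ ∉ E) : X.card ≤ E.card * R := by
  classical
  obtain ⟨NF, hNF1, hNF2⟩ := exists_SF hS
  have hr : ∀ b : A, ∃ r : Fˣ, b ∈ X → b ≠ 1 ∧ φ r = b ∧ r ∈ Wg φ := by
    intro b
    by_cases hb : b ∈ X
    · obtain ⟨hb1, r, s, hrb, hrs, hs1, hs2⟩ := (hX b hb).1
      exact ⟨r, fun _ => ⟨hb1, hrb, nr_w ⟨by rw [hrb]; exact hb1, s, hrs, hs1,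
        by rw [hrb]; exact hs2⟩⟩⟩
    · exact ⟨1, fun h => absurd h hb⟩
  choose r hr using hr
  have hφ : ∀ b ∈ X, ∀ i, φ (r b * c ^ (m * i)) = b := by
    intro b hb i
    rw [map_mul, hD.pow, mul_one, (hr b hb).2.1]
  have hrE : ∀ b ∈ X, ∀ i, r b * c ^ (m * i) ∈ Wg φ := fun b hb i =>
    mul_mem (hr b hb).2.2 (pow_mem hD.unit _)
  have hx : ∀ (b : A) (i : ℕ), ∃ x : Fˣ, b ∈ X →
      (x : F) = 1 + ((r b * c ^ (m * i) : Fˣ) : F) ∧ x ∈ Wg φ := by
    intro b i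
    by_cases hb : b ∈ X
    · obtain ⟨x, hx, hxE⟩ := u_add h (one_mem (Wg φ)) (hrE b hb i) (by
        rw [map_one, hφ b hb]; exact fun e => (hr b hb).1 e.symm)
      exact ⟨x, fun _ => ⟨by rw [hx, Units.val_one], hxE⟩⟩
    · exact ⟨1, fun h => absurd h hb⟩
  choose x hx using hx
  have hxN : ∀ b ∈ X, ∀ i, φ (x b i) ∈ Ss φ b := fun b hb i =>
    ⟨_, _, hφ b hb i, (hx b i hb).1, rfl⟩
  let f : ℕ → (b : {b // b ∈ X}) → {a // a ∈ NF b.1} := fun i b =>
    ⟨φ (x b.1 i), (hNF2 _ _ (hr b.1 b.2).1).2 (hxN b.1 b.2 i)⟩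
  obtain ⟨i, j, hij, hf⟩ := Finite.exists_ne_map_eq_of_infinite f
  have key : ∀ i j : ℕ, i < j → f i = f j → X.card ≤ E.card * R := by
    intro i j hij hf
    have hfe : ∀ b ∈ X, φ (x b i) = φ (x b j) := by
      intro b hb
      have := congrArg Subtype.val (congrFun hf ⟨b, hb⟩)
      exact this
    have hji : 1 ≤ j - i := by omega
    set d := δ (j - i) with hd
    have hdE := hD.en _ hji
    have hdv := hD.eq _ hji
    rw [← hd] at hdE hdv
    have hsub : (X.image fun b => b⁻¹) ⊆ (E.image fun g => φ d / g).biUnion NF := by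
      intro b' hb'
      obtain ⟨b, hb, rfl⟩ := Finset.mem_image.1 hb'
      obtain ⟨hb1, hrb, hrbE⟩ := hr b hb
      obtain ⟨hbN, hbE, hbE'⟩ := hX b hb
      obtain ⟨hxi, hxiE⟩ := hx b i hb
      obtain ⟨hxj, hxjE⟩ := hx b j hb
      -- the small unit
      set w := r b * c ^ (m * i) * d / x b j with hw
      have hwE : w ∈ Wg φ := div_mem (mul_mem (hrE b hb i) hdE) hxjE
      have hwφ : φ w = b * φ d / φ (x b j) := by
        rw [hw, map_div, map_mul, hφ b hb]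
      have hcc : (c : F) ^ (m * j) = (c : F) ^ (m * i) * (c : F) ^ (m * (j - i)) := by
        rw [← pow_add, ← Nat.mul_add, Nat.add_sub_cancel' hij.le]
      have hwS : φ w ∈ E := by
        rw [hE]
        refine ⟨w, hwE, rfl, x b i / x b j, ?_, ?_⟩
        · have h0 : (x b j : F) ≠ 0 := (x b j).ne_zero
          rw [Units.val_neg, hw, Units.val_div_eq_div_val, Units.val_div_eq_div_val, Units.val_mul,
            Units.val_one, hdv, div_eq_iff h0, add_mul, neg_mul, div_mul_cancel₀ _ h0, one_mul, hxi,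
            hxj, Units.val_mul, Units.val_mul, Units.val_pow_eq_pow_val, Units.val_pow_eq_pow_val,
            hcc]
          ring
        · rw [map_div, hfe b hb, div_self', map_one]
      have hne : φ (x b j) ≠ b := by
        intro e
        apply hbE'
        rw [hE]
        refine ⟨-(r b * c ^ (m * j))⁻¹, u_neg h (inv_mem (hrE b hb j)), ?_,
          x b j / (r b * c ^ (m * j)), ?_, ?_⟩
        · rw [phi_neg h.neg, map_inv, hφ b hb]
        · have h0 : ((r b * c ^ (m * j) : Fˣ) : F) ≠ 0 := Units.ne_zero _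
          rw [neg_neg, Units.val_div_eq_div_val, hxj, Units.val_one, Units.val_inv_eq_inv_val]
          field_simp
          ring
        · rw [map_div, e, hφ b hb, div_self', map_one]
      have ht : φ (x b j) / b = φ d / φ w := by
        rw [hwφ, mul_comm b, mul_div_assoc, div_mul_eq_div_div, div_self', one_div, inv_div]
      have ht1 : φ (x b j) / b ≠ 1 := fun e => hne (div_eq_one.1 e)
      refine Finset.mem_biUnion.2 ⟨φ (x b j) / b, ?_, ?_⟩
      · exact Finset.mem_image.2 ⟨φ w, hwS, ht.symm⟩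
      · rw [hNF2 _ _ ht1]
        exact ss_symm h.neg (ss_inv (hxN b hb j))
    have hXc : (X.image fun b => b⁻¹).card = X.card :=
      Finset.card_image_of_injective _ inv_injective
    rw [← hXc]
    refine (Finset.card_le_card hsub).trans (Finset.card_biUnion_le.trans ?_)
    refine (Finset.sum_le_card_nsmul _ _ R fun t _ => hNF1 t).trans ?_
    rw [smul_eq_mul]
    exact Nat.mul_le_mul_right _ Finset.card_image_le
  rcases Nat.lt_or_gt_of_ne hij with hij | hij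
  · exact key i j hij hf
  · exact key j i hij hf.symm

/-- the units have finitely many classes -/
lemma units_finite (hS : SysR φ R) (h : RB φ M) {c : Fˣ} {δ : ℕ → Fˣ} (hD : Dt φ m c δ) :
    {g : A | ∃ y : Fˣ, φ y = g ∧ y ∈ Wg φ}.Finite := by
  classical
  obtain ⟨E, hE⟩ := su_fin h
  have hf : {b : A | b ∈ NR φ ∧ b ∉ E ∧ b⁻¹ ∉ E}.Finite := by
    by_contra hc
    obtain ⟨t, ht, htc⟩ :=
      (Set.not_finite.1 hc : Set.Infinite _).exists_subset_card_eq (E.card * R + 1)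
    have := card_nr' hS h hD E hE t fun g hg => ht hg
    omega
  refine ((hf.union (E.finite_toSet.union (E.image fun g => g⁻¹).finite_toSet)).union
    (Set.finite_singleton 1)).subset ?_
  rintro g ⟨y, rfl, hy⟩
  by_cases h1 : φ y = 1
  · exact Or.inr h1
  left
  by_cases h2 : φ y ∈ E
  · exact Or.inr (Or.inl h2)
  by_cases h3 : (φ y)⁻¹ ∈ E
  · exact Or.inr (Or.inr (Finset.mem_coe.2 (Finset.mem_image.2 ⟨_, h3, inv_inv _⟩)))
  by_cases h4 : φ y ∈ NR φ
  · exact Or.inl ⟨h4, h2, h3⟩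
  exfalso
  rcases ml_of h.neg h4 h1 with h5 | h5
  · apply h2
    rw [hE]
    exact ⟨-y, u_neg h hy, phi_neg h.neg y, by rwa [neg_neg]⟩
  · apply h3
    rw [hE]
    exact ⟨-y⁻¹, u_neg h (inv_mem hy), by rw [phi_neg h.neg, map_inv], by rwa [neg_neg]⟩

/-- differences of the elements `λ c ^ (p σ i)` -/
lemma sigma_sub (h : RB φ M) {c : Fˣ} {δ : ℕ → Fˣ} (hD : Dt φ m c δ) {σ : ℕ → ℕ} {α : A}
    (hσ : StrictMono σ) (hα : ∀ i j, i < j → φ (δ (σ j - σ i)) = α) {l : Fˣ}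
    (hl : l ∈ Wg φ) {i j : ℕ} (hij : i < j) :
    ∃ u : Fˣ, (u : F) = (l * c ^ (m * σ j) : Fˣ) - (l * c ^ (m * σ i) : Fˣ) ∧ φ u = φ l * α ∧
      u ∈ Wg φ := by
  have h1 := hσ hij
  have h2 : 1 ≤ σ j - σ i := by omega
  refine ⟨l * c ^ (m * σ i) * δ (σ j - σ i), ?_, ?_,
    mul_mem (mul_mem hl (pow_mem hD.unit _)) (hD.en _ h2)⟩
  · have hcc : (c : F) ^ (m * σ j) = (c : F) ^ (m * σ i) * (c : F) ^ (m * (σ j - σ i)) := by
      rw [← pow_add, ← Nat.mul_add, Nat.add_sub_cancel' h1.le]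
    rw [Units.val_mul, hD.eq _ h2, Units.val_mul, Units.val_mul, Units.val_pow_eq_pow_val,
      Units.val_pow_eq_pow_val, hcc]
    ring
  · rw [map_mul, map_mul, hD.pow, mul_one, hα i j hij]

/-- sets with differences in a given class -/
lemma exists_set (h : RB φ M) {c : Fˣ} {δ : ℕ → Fˣ} (hD : Dt φ m c δ) {σ : ℕ → ℕ} {α : A}
    (hσ : StrictMono σ) (hα : ∀ i j, i < j → φ (δ (σ j - σ i)) = α) {l : Fˣ}
    (hl : l ∈ Wg φ) (q : ℕ) : ∃ C : Finset F, q ≤ C.card ∧ (∀ a ∈ C, a ∈ OO φ M) ∧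
      ∀ a ∈ C, ∀ b ∈ C, a ≠ b → ∃ u : Fˣ, (u : F) = a - b ∧ φ u = φ l * α ∧ u ∈ Wg φ := by
  classical
  have key : ∀ i j : ℕ, i ≠ j → ∃ u : Fˣ,
      (u : F) = (l * c ^ (m * σ i) : Fˣ) - (l * c ^ (m * σ j) : Fˣ) ∧ φ u = φ l * α ∧
        u ∈ Wg φ := by
    intro i j hij
    rcases Nat.lt_or_gt_of_ne hij with hij | hij
    · obtain ⟨u, hu, hu1, hu2⟩ := sigma_sub h hD hσ hα hl hij
      exact ⟨-u, by rw [Units.val_neg, hu]; ring, by rw [phi_neg h.neg, hu1], u_neg h hu2⟩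
    · exact sigma_sub h hD hσ hα hl hij
  refine ⟨(Finset.range q).image fun i => ((l * c ^ (m * σ i) : Fˣ) : F), ?_, ?_, ?_⟩
  · rw [Finset.card_image_of_injOn, Finset.card_range]
    intro i _ j _ e
    by_contra hij
    obtain ⟨u, hu, -⟩ := key i j hij
    exact u.ne_zero (by rw [hu]; exact sub_eq_zero.2 e)
  · intro a ha
    obtain ⟨i, -, rfl⟩ := Finset.mem_image.1 ha
    exact Or.inr ⟨_, rfl, u_q h (mul_mem hl (pow_mem hD.unit _))⟩
  · intro a ha b hb hab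
    obtain ⟨i, -, rfl⟩ := Finset.mem_image.1 ha
    obtain ⟨j, -, rfl⟩ := Finset.mem_image.1 hb
    exact key i j fun e => hab (by rw [e])

/-- every class of units contains a small unit -/
lemma all_small (hS : SysR φ R) (h : RB φ M) {c : Fˣ} {δ : ℕ → Fˣ} (hD : Dt φ m c δ) (g : Fˣ)
    (hg : g ∈ Wg φ) : Su φ (φ g) := by
  classical
  by_contra hcon
  have hUf := units_finite hS h hD
  obtain ⟨α, σ, hσ, ⟨n, hn, hnα⟩, hα⟩ := exists_diff (fun n => φ (δ n)) (hUf.subset (by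
    rintro _ ⟨n, hn, rfl⟩
    exact ⟨δ n, rfl, hD.en n hn⟩))
  have hα' : ∀ i j, i < j → φ (δ (σ j - σ i)) = α := hα
  -- the thin sets
  let P : Option A → Set F := fun o => match o with
    | some a => {x | ∃ y : Fˣ, (y : F) = x ∧ φ y = a ∧ y ∈ Wg φ}
    | none => {x | x ∈ OO φ M ∧ ¬ ∃ y : Fˣ, (y : F) = x ∧ y ∈ Wg φ}
  let s : Finset (Option A) := insert none (hUf.toFinset.image some)
  obtain ⟨D, hDO, hDx⟩ := exists_leave (OO φ M) (Or.inl rfl) (oo_add h) P s (by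
    intro o ho q
    rcases o with _ | a
    · obtain ⟨C, hC1, hC2, hC3⟩ := exists_set h hD hσ hα' (one_mem (Wg φ)) q
      refine ⟨C, hC1, hC2, ?_⟩
      intro x a ha b hb hxa hxb
      by_contra hab
      obtain ⟨u, hu, -, huE⟩ := hC3 a ha b hb hab
      obtain ⟨hxa1, hxa2⟩ := hxa
      obtain ⟨hxb1, hxb2⟩ := hxb
      rcases hxa1 with h1 | ⟨y, hy, hyq⟩
      · rcases hxb1 with h2 | ⟨z, hz, hzq⟩
        · exact u.ne_zero (by rw [hu]; linear_combination h1 - h2)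
        · apply hxb2
          exact ⟨-u, by rw [Units.val_neg, hu]; linear_combination (-1) * h1, u_neg h huE⟩
      · rcases hxb1 with h2 | ⟨z, hz, hzq⟩
        · apply hxa2
          exact ⟨u, by rw [hu]; linear_combination (-1) * h2, huE⟩
        · exact sub_nonunit h hyq hzq (fun h3 => hxa2 ⟨y, hy, h3⟩) (fun h3 => hxb2 ⟨z, hz, h3⟩) huE
            (by rw [hy, hz, hu]; ring)
    · have ha : ∃ y : Fˣ, φ y = a ∧ y ∈ Wg φ := by
        have h1 := Finset.mem_of_mem_insert_of_ne ho (by simp)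
        obtain ⟨b, hb, hba⟩ := Finset.mem_image.1 h1
        rw [Option.some_inj] at hba
        rw [← hba]
        exact (Set.Finite.mem_toFinset hUf).1 hb
      obtain ⟨y, hya, hyE⟩ := ha
      obtain ⟨C, hC1, hC2, hC3⟩ := exists_set h hD hσ hα' (l := y * g / δ n)
        (div_mem (mul_mem hyE hg) (hD.en n hn)) q
      refine ⟨C, hC1, hC2, ?_⟩
      intro x a' ha' b' hb' hxa hxb
      by_contra hab
      obtain ⟨u, hu, huφ, huE⟩ := hC3 b' hb' a' ha' (fun e => hab e.symm)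
      obtain ⟨z, hz, hzφ, hzE⟩ := hxa
      obtain ⟨z', hz', hzφ', hzE'⟩ := hxb
      apply hcon
      have hnα' : φ (δ n) = α := hnα
      refine ⟨u / z', div_mem huE hzE', ?_, z / z', ?_, ?_⟩
      · rw [map_div, huφ, hzφ', map_div, map_mul, hya, hnα', div_mul_cancel, mul_comm a,
          mul_div_cancel_right]
      · have h0 : (z' : F) ≠ 0 := z'.ne_zero
        rw [Units.val_neg, Units.val_one, Units.val_div_eq_div_val, Units.val_div_eq_div_val,
          div_eq_iff h0, add_mul, neg_mul, div_mul_cancel₀ _ h0, one_mul, hu, hz, hz']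
        ring
      · rw [map_div, hzφ, hzφ', div_self', map_one])
  obtain ⟨d, hdD, hd⟩ := hDx 0
  rw [zero_add] at hd
  have h1 := hd none (Finset.mem_insert_self _ _)
  have h2 : ∃ y : Fˣ, (y : F) = d ∧ y ∈ Wg φ := by
    by_contra h3
    exact h1 ⟨hDO d hdD, h3⟩
  obtain ⟨y, hy, hyE⟩ := h2
  refine hd (some (φ y)) ?_ ⟨y, hy, rfl, hyE⟩
  apply Finset.mem_insert_of_mem
  exact Finset.mem_image.2 ⟨φ y, (Set.Finite.mem_toFinset hUf).2 ⟨y, rfl, hyE⟩, rfl⟩

/-- the number of non-rigid classes -/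
theorem not_rb (hS : SysR φ R) (hm : 1 ≤ m) (hexp : ∀ x : Fˣ, φ x ^ m = 1)
    (hbig : ∀ E : Finset A, E.card ≤ m → ∃ b ∈ NR φ, b ∉ E) : ¬ RB φ M := by
  classical
  intro h
  obtain ⟨c, δ, hD⟩ := exists_dt h hm hexp hbig
  obtain ⟨E, hE, hEc⟩ := sm_fin (φ := φ) h.neg (2 * M)
  obtain ⟨b, hb, hbE⟩ := h.big E (by omega)
  obtain ⟨hb1, r, s, rfl, hrs, hs1, hs2⟩ := hb
  apply hbE
  rw [hE]
  exact su_sm h (all_small hS h hD r (nr_w ⟨hb1, s, hrs, hs1, hs2⟩)) hb1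

/-- the number of non-rigid classes -/
theorem nr_card (hS : SysR φ R) (hL : HL φ M) (hM : 1 ≤ M) (hm : 1 ≤ m)
    (hexp : ∀ x : Fˣ, φ x ^ m = 1) :
    (NR φ).Finite ∧ (NR φ).ncard ≤ max (4 * M + 1) m := by
  classical
  have key : ∀ E : Finset A, max (4 * M + 1) m < E.card → (∀ g ∈ E, g ∈ NR φ) → False := by
    intro E hE hEN
    have hex : ∀ E' : Finset A, E'.card ≤ max (4 * M + 1) m → ∃ b ∈ NR φ, b ∉ E' := by
      intro E' hE'
      by_contra hcon
      push Not at hcon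
      have : E ⊆ E' := fun g hg => hcon g (hEN g hg)
      have := Finset.card_le_card this
      omega
    exact not_rb hS hm hexp (fun E' hE' => hex E' (hE'.trans (le_max_right _ _)))
      ⟨hS.neg, hL, hM, fun E' hE' => hex E' (hE'.trans (le_max_left _ _))⟩
  have hf : (NR φ).Finite := by
    by_contra hc
    obtain ⟨t, ht, htc⟩ := (Set.not_finite.1 hc : Set.Infinite _).exists_subset_card_eq
      (max (4 * M + 1) m + 1)
    exact key t (by omega) fun g hg => ht hg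
  refine ⟨hf, ?_⟩
  rw [Set.ncard_eq_toFinset_card _ hf]
  by_contra hc
  push Not at hc
  exact key _ hc fun g hg => (Set.Finite.mem_toFinset hf).1 hg

end

end Pool.Agent.V7H79.EU
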