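import Mathlib
import Pool.Agent.Y705.EP.Pig
import Pool.Agent.V7H79.EU.Sum

set_option autoImplicit false

/-! The basic lemma for norm groups: a group of order `p^j` has `(p^j - 1)/(p - 1)` subgroups of
order `p`, and the norm group of `g` depends only on the subgroup generated by `g`. -/

namespace Pool.Agent.V7H79.EU

open Pool.Agent.Y920.EP Pool.Agent.Y705.EP

section

variable {F : Type} [Field F] {A : Type} [CommGroup A] {φ : Fˣ →* A} {Nn : A → Subgroup A}
  {N p : ℕ}

lemma nn_pow (hS : Sys φ Nn N) (hp : p.Prime) (hexp : ∀ a : A, a ^ p = 1) {g : A} {i : ℕ}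
    (hi : ¬ p ∣ i) : Nn (g ^ i) = Nn g := by
  have key : ∀ (g : A) (i : ℕ), Nn g ≤ Nn (g ^ i) := by
    intro g i b hb
    exact hS.symm _ _ (pow_mem (hS.symm _ _ hb) i)
  refine le_antisymm ?_ (key g i)
  have hcop : Nat.Coprime i p := ((Nat.Prime.coprime_iff_not_dvd hp).2 hi).symm
  obtain ⟨m, hm⟩ := Nat.exists_mul_mod_eq_one_of_coprime hcop hp.one_lt
  have h1 : (g ^ i) ^ m = g := by
    rw [← pow_mul]
    conv_lhs => rw [← Nat.div_add_mod (i * m) p, hm.2]
    rw [pow_add, pow_one, pow_mul, hexp, one_pow, one_mul]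
  have h2 := key (g ^ i) m
  rwa [h1] at h2

lemma l1_norm (hS : Sys φ Nn N) (hp : p.Prime) (hexp : ∀ a : A, a ^ p = 1) {x y z : Fˣ}
    (hz : (z : F) = x + y) (hxy : φ x ≠ φ y) : Le φ ((N - 1) / (p - 1) * N) y z := by
  classical
  have ha : φ y / φ x ≠ 1 := fun e => hxy (div_eq_one.1 e).symm
  obtain ⟨NF, hNF1, hNF2⟩ := exists_NF hS
  -- `z / x` is in the norm group of `y / x`
  have hzx : φ z / φ x ∈ Nn (φ y / φ x) := by
    have h1 := hS.sum (y / x) (z / x) (by
      rw [Units.val_div_eq_div_val, Units.val_div_eq_div_val, hz]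
      field_simp)
    rwa [map_div, map_div] at h1
  set S : Finset A := (NF (φ y / φ x)).erase 1 with hSdef
  let I : Finset (Finset A) := S.image NF
  have hmemS : ∀ g, g ∈ S ↔ g ≠ 1 ∧ g ∈ Nn (φ y / φ x) := by
    intro g
    rw [hSdef, Finset.mem_erase, hNF2 _ _ ha]
  have hIc : I.card ≤ (N - 1) / (p - 1) := by
    have hp1 : 0 < p - 1 := by have := hp.two_le; omega
    rw [Nat.le_div_iff_mul_le hp1, mul_comm]
    have h1 : (p - 1) * I.card ≤ S.card := by
      apply Finset.mul_card_image_le_card
      intro K hK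
      obtain ⟨g, hg, rfl⟩ := Finset.mem_image.1 hK
      rw [hmemS] at hg
      have := Fact.mk hp
      have hord : orderOf g = p := orderOf_eq_prime (hexp g) hg.1
      have hsub : ((Finset.Icc 1 (p - 1)).image fun i => g ^ i) ⊆
          S.filter fun x => NF x = NF g := by
        intro x hx
        obtain ⟨i, hi, rfl⟩ := Finset.mem_image.1 hx
        rw [Finset.mem_Icc] at hi
        have hpi : ¬ p ∣ i := fun h => by
          have := Nat.le_of_dvd (by omega) h
          omega
        have hne : g ^ i ≠ 1 := by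
          rw [Ne, ← orderOf_dvd_iff_pow_eq_one, hord]
          exact hpi
        rw [Finset.mem_filter, hmemS]
        refine ⟨⟨hne, pow_mem hg.2 i⟩, ?_⟩
        ext b
        rw [hNF2 _ _ hne, hNF2 _ _ hg.1, nn_pow hS hp hexp hpi]
      refine le_trans ?_ (Finset.card_le_card hsub)
      rw [Finset.card_image_of_injOn, Nat.card_Icc]
      · omega
      · intro i hi j hj e
        rw [Finset.mem_coe, Finset.mem_Icc] at hi hj
        have e' : g ^ i = g ^ j := e
        rw [pow_inj_mod, hord] at e'
        rwa [Nat.mod_eq_of_lt (by omega), Nat.mod_eq_of_lt (by omega)] at e'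
    have h2 : S.card ≤ N - 1 := by
      have h3 : (1 : A) ∈ NF (φ y / φ x) := (hNF2 _ _ ha).2 (one_mem _)
      rw [hSdef, Finset.card_erase_of_mem h3]
      exact Nat.sub_le_sub_right (hNF1 _) 1
    exact h1.trans h2
  let B : Finset A := I.biUnion fun K => K.image fun n => φ z * n
  refine ⟨B, ?_, ?_⟩
  · have h1 : B.card ≤ I.card * N := by
      refine Finset.card_biUnion_le.trans ?_
      rw [← smul_eq_mul]
      refine Finset.sum_le_card_nsmul _ _ _ fun K hK => Finset.card_image_le.trans ?_
      obtain ⟨g, -, rfl⟩ := Finset.mem_image.1 hK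
      exact hNF1 g
    exact h1.trans (Nat.mul_le_mul_right _ hIc)
  · rintro w hw ⟨y', hy', e⟩
    obtain ⟨z', hz'⟩ := exists_add hS.neg (x := x) (y := y') (by rw [e]; exact hxy)
    have hz1 : (z' : F) = z + w := by rw [hz', hy', hz]; ring
    by_cases hg : φ z' = φ z
    · exact ⟨z', hz1, hg⟩
    · exfalso
      apply hw
      have hg' : φ z' / φ z ≠ 1 := fun e => hg (div_eq_one.1 e)
      refine Finset.mem_biUnion.2 ⟨NF (φ z' / φ z), ?_, ?_⟩
      · refine Finset.mem_image.2 ⟨φ z' / φ z, ?_, rfl⟩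
        rw [hmemS]
        refine ⟨hg', ?_⟩
        have h1 := hS.sum (y' / x) (z' / x) (by
          rw [Units.val_div_eq_div_val, Units.val_div_eq_div_val, hz']
          field_simp)
        rw [map_div, map_div, e] at h1
        have h2 := div_mem h1 hzx
        rwa [div_div_div_cancel_right] at h2
      · refine Finset.mem_image.2 ⟨φ w / φ z, (hNF2 _ _ hg').2 ?_, ?_⟩
        · have h1 := hS.sum (w / z) (z' / z) (by
            rw [Units.val_div_eq_div_val, Units.val_div_eq_div_val, hz1]
            field_simp)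
          rw [map_div, map_div] at h1
          exact hS.symm _ _ h1
        · exact mul_div_cancel _ _

/-- the basic lemma for norm groups -/
theorem hl_norm (hS : Sys φ Nn N) (hp : p.Prime) (hexp : ∀ a : A, a ^ p = 1) :
    HL φ ((N - 1) / (p - 1) * N) := by
  intro x y z hz hxy
  exact ⟨l1_norm hS hp hexp (by rw [hz, add_comm]) (Ne.symm hxy), l1_norm hS hp hexp hz hxy⟩

end

end Pool.Agent.V7H79.EU
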