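import Mathlib
import Pool.Agent.V7H42.ET.Rng
import Pool.Agent.Y349.EP.Symm
import Pool.Agent.Y349.EP.NG
import Pool.Agent.V7H79.EU.Big
import Pool.Agent.V7H79.EU.HLp

set_option autoImplicit false

/-! The number of the classes that are not rigid, for small sum sets and for small norm groups. -/

namespace Pool.Agent.V7H79.EU

open Pool.Agent.Y920.EP Pool.Agent.Y705.EP
open Pool.Agent.V7H42.ET (nonrigidC nonrigid_eq)

variable {F : Type} [Field F]

/-- the `T`-classes of the elements `1 + a t`, `t ∈ T` -/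
def sumC (T : Subgroup Fˣ) (a : Fˣ) : Set (Fˣ ⧸ T) :=
  {c | ∃ t ∈ T, ∃ v : Fˣ, (v : F) = 1 + a * t ∧ (v : Fˣ ⧸ T) = c}

lemma sysR (T : Subgroup Fˣ) (hneg : (-1 : Fˣ) ∈ T) (R : ℕ)
    (hR : ∀ a : Fˣ, a ∉ T → (sumC T a).Finite ∧ (sumC T a).ncard ≤ R) :
    SysR (A := Fˣ ⧸ T) (QuotientGroup.mk' T) R := by
  refine ⟨?_, ?_⟩
  · rw [QuotientGroup.mk'_apply, QuotientGroup.eq_one_iff]
    exact hneg
  · intro a ha
    obtain ⟨x, rfl⟩ := QuotientGroup.mk'_surjective T a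
    have hx : x ∉ T := by
      rwa [Ne, QuotientGroup.mk'_apply, QuotientGroup.eq_one_iff] at ha
    have e : Ss (QuotientGroup.mk' T) (QuotientGroup.mk' T x) = sumC T x := by
      ext c
      constructor
      · rintro ⟨u, v, hu, hv, rfl⟩
        refine ⟨x⁻¹ * u, ?_, v, ?_, rfl⟩
        · rw [QuotientGroup.mk'_apply, QuotientGroup.mk'_apply, eq_comm, QuotientGroup.eq] at hu
          exact hu
        · rw [hv, ← Units.val_mul, mul_inv_cancel_left]
      · rintro ⟨t, ht, v, hv, rfl⟩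
        refine ⟨x * t, v, ?_, by rw [hv, Units.val_mul], rfl⟩
        rw [QuotientGroup.mk'_apply, QuotientGroup.mk'_apply, eq_comm, QuotientGroup.eq,
          inv_mul_cancel_left]
        exact ht
    rw [e]
    exact hR x hx

/-- small sum sets -/
theorem nonrigid_sum {m : ℕ} (hm : 1 ≤ m) (T : Subgroup Fˣ) (hT : pwG F m ≤ T)
    (hneg : (-1 : Fˣ) ∈ T) (R : ℕ) (hR2 : 2 ≤ R)
    (hR : ∀ a : Fˣ, a ∉ T → (sumC T a).Finite ∧ (sumC T a).ncard ≤ R) :
    (nonrigidC T).Finite ∧ (nonrigidC T).ncard ≤ max ((2 * R - 1) ^ 2) m := by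
  have hS := sysR T hneg R hR
  have h1 := nr_card (m := m) hS (hl_of hS) (by
      have : 1 * 1 ≤ (R - 1) * R := Nat.mul_le_mul (by omega) (by omega)
      omega) hm (fun x => by
    rw [← map_pow, QuotientGroup.mk'_apply, QuotientGroup.eq_one_iff]
    exact hT ⟨x, rfl⟩)
  rw [nonrigid_eq] at h1
  have h2 : 4 * ((R - 1) * R) + 1 = (2 * R - 1) ^ 2 := by
    obtain ⟨q, rfl⟩ := Nat.exists_eq_add_of_le hR2
    have h3 : 2 + q - 1 = q + 1 := by omega
    have h4 : 2 * (2 + q) - 1 = 2 * q + 3 := by omega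
    rw [h3, h4]
    ring
  rwa [h2] at h1

lemma sysR_of {A : Type} [CommGroup A] {φ : Fˣ →* A} {Nn : A → Subgroup A} {N : ℕ}
    (hS : Sys φ Nn N) : SysR φ N := by
  refine ⟨hS.neg, fun a ha => ?_⟩
  obtain ⟨h1, h2⟩ := hS.fin a ha
  have hsub : Ss φ a ⊆ (Nn a : Set A) := by
    rintro g ⟨u, v, rfl, hv, rfl⟩
    exact hS.sum u v hv
  exact ⟨h1.subset hsub, (Set.ncard_le_ncard hsub h1).trans h2⟩

lemma p_le {A : Type} [CommGroup A] {φ : Fˣ →* A} {Nn : A → Subgroup A} {N p : ℕ}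
    (hp : p.Prime) (hexp : ∀ a : A, a ^ p = 1) (hS : Sys φ Nn N) {a : A} (ha : a ≠ 1) :
    p ≤ N := by
  obtain ⟨h1, h2⟩ := hS.fin a ha
  have hsub : (Subgroup.zpowers a : Set A) ⊆ Nn a := by
    rw [SetLike.coe_subset_coe, Subgroup.zpowers_le]
    exact self_mem hS a
  have h3 := Set.ncard_le_ncard hsub h1
  have := Fact.mk hp
  have h4 : ((Subgroup.zpowers a : Subgroup A) : Set A).ncard = p := by
    rw [← Nat.card_coe_set_eq]
    show Nat.card (Subgroup.zpowers a) = p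
    rw [Nat.card_zpowers]
    exact orderOf_eq_prime (hexp a) ha
  omega

/-- small norm groups -/
theorem nonrigid_norm {p : ℕ} (hp : p.Prime) (hp2 : p ≠ 2) (hζ : ∃ ζ : F, IsPrimitiveRoot ζ p)
    (N : ℕ) (hN : ∀ a : Fˣ, a ∉ pwG F p →
      (pwG F p).relIndex (nmG p a) ≠ 0 ∧ (pwG F p).relIndex (nmG p a) ≤ N) :
    (nonrigidC (pwG F p)).Finite ∧
      (nonrigidC (pwG F p)).ncard ≤ max (4 * ((N - 1) / (p - 1) * N) + 1) p ∧
      (pwG F p ≠ ⊤ → p ≤ N) := by
  have hk : (QuotientGroup.mk' (pwG F p)).ker = pwG F p := QuotientGroup.ker_mk' _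
  have hs := QuotientGroup.mk'_surjective (pwG F p)
  have hS := sys (A := Fˣ ⧸ pwG F p) (φ := QuotientGroup.mk' (pwG F p)) hs hk Pool.Agent.Y349.EP.t_NG Pool.Agent.Y349.EP.t_SYMM hp hp2 hζ N hN
  have hexp := exp_p (A := Fˣ ⧸ pwG F p) (φ := QuotientGroup.mk' (pwG F p)) hs hk
  have hpN : pwG F p ≠ ⊤ → p ≤ N := by
    intro hT
    obtain ⟨a, ha⟩ : ∃ a : Fˣ, a ∉ pwG F p := by
      by_contra hc
      push Not at hc
      exact hT (eq_top_iff.2 fun a _ => hc a)
    refine p_le hp hexp hS (a := QuotientGroup.mk' (pwG F p) a) ?_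
    rwa [Ne, QuotientGroup.mk'_apply, QuotientGroup.eq_one_iff]
  by_cases hT : pwG F p = ⊤
  · have he : nonrigidC (pwG F p) = ∅ := by
      rw [Set.eq_empty_iff_forall_notMem]
      rintro c ⟨r, s, -, -, h, -⟩
      exact h (by rw [hT]; exact Subgroup.mem_top r)
    rw [he]
    exact ⟨Set.finite_empty, by rw [Set.ncard_empty]; omega, hpN⟩
  · have h1 := hpN hT
    have h2 : 1 ≤ (N - 1) / (p - 1) := by
      have hp1 := hp.two_le
      rw [Nat.le_div_iff_mul_le (by omega)]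
      omega
    have h3 : 1 * 1 ≤ (N - 1) / (p - 1) * N := Nat.mul_le_mul h2 (by
      have := hp.two_le
      omega)
    have h4 := nr_card (m := p) (sysR_of hS) (hl_norm hS hp hexp) (by omega) hp.one_le
      (fun x => hexp _)
    rw [nonrigid_eq] at h4
    exact ⟨h4.1, h4.2, hpN⟩

/-- the bound for the number of the classes of units -/
def bnd (p x : ℕ) : ℕ := if p = 2 then 12 * x else if p = 3 then 9 * x / 2 else p * x

/-- the arithmetic of the corollary -/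
theorem head_arith {p k x : ℕ} (hp : p.Prime) (hp2 : p ≠ 2) (hk : 1 ≤ k)
    (hx : x ≤ max (4 * ((p ^ k - 1) / (p - 1) * p ^ k) + 1) p + 1) :
    bnd p x < p ^ (2 * k + if p = 3 then 2 else 1) := by
  obtain ⟨N, hN⟩ : ∃ N, N = p ^ k := ⟨_, rfl⟩
  have hpN : p ≤ N := by
    rw [hN]
    exact Nat.le_self_pow (by omega) p
  have hp3 : 3 ≤ p := by
    have := hp.two_le
    omega
  rw [← hN] at hx
  have hexp : ∀ e, p ^ (2 * k + e) = N ^ 2 * p ^ e := by
    intro e
    rw [pow_add, mul_comm 2 k, pow_mul, hN]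
  rw [hexp]
  obtain ⟨D, hD⟩ : ∃ D, D = (N - 1) / (p - 1) := ⟨_, rfl⟩
  have hD1 : D * (p - 1) ≤ N - 1 := by rw [hD]; exact Nat.div_mul_le_self _ _
  have hD2 : 1 ≤ D := by
    rw [hD, Nat.le_div_iff_mul_le (by omega)]
    omega
  rw [← hD] at hx
  have hx2 : x ≤ 4 * (D * N) + 2 := by
    have h1 : 1 * p ≤ D * N := Nat.mul_le_mul hD2 hpN
    have h2 : max (4 * (D * N) + 1) p = 4 * (D * N) + 1 := max_eq_left (by omega)
    rw [h2] at hx
    omega
  obtain ⟨q, hq⟩ : ∃ q, p = q + 3 := ⟨p - 3, by omega⟩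
  obtain ⟨n, hn⟩ : ∃ n, N = n + 1 := ⟨N - 1, by omega⟩
  have hD3 : D * (q + 2) ≤ n := by
    have h1 : p - 1 = q + 2 := by omega
    have h2 : N - 1 = n := by omega
    rwa [h1, h2] at hD1
  by_cases h3 : p = 3
  · rw [bnd, if_neg hp2, if_pos h3, if_pos h3, h3]
    have hq0 : q = 0 := by omega
    rw [hq0] at hD3
    refine lt_of_le_of_lt (Nat.div_le_div_right (Nat.mul_le_mul_left _ hx2)) ?_
    have h4 : 9 * (4 * (D * N) + 2) / 2 = 18 * (D * N) + 9 := by omega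
    rw [h4, hn]
    have h5 : D * 2 * (n + 1) ≤ n * (n + 1) := Nat.mul_le_mul_right _ (by omega)
    nlinarith
  · rw [bnd, if_neg hp2, if_neg h3, if_neg h3, pow_one, mul_comm]
    refine Nat.mul_lt_mul_of_pos_right ?_ hp.pos
    refine lt_of_le_of_lt hx2 ?_
    have h5 : 5 ≤ p := by
      by_contra hc
      push Not at hc
      interval_cases p
      · exact h3 rfl
      · exact absurd hp (by norm_num)
    have h10 : 4 * D ≤ n := by
      have : D * 4 ≤ D * (q + 2) := Nat.mul_le_mul_left _ (by omega)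
      omega
    have h11 : 4 * D * (n + 1) ≤ n * (n + 1) := Nat.mul_le_mul_right _ h10
    rw [hn]
    nlinarith

end Pool.Agent.V7H79.EU
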